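import Pool.Agent.Gen.TY.D.Heavy

/-!
MP_8ee768_co, project TH-Y', stage D: all rows with at least 23 blocks are dead.
-/

set_option autoImplicit false
set_option maxRecDepth 100000

namespace Pool.Agent.Gen.TY.D

open Pool.Agent.Helper47.TY
open Pool.Agent.Helper7.TB (typ nl lane typ_lt lane_lt)

/-- the batches -/
def bs : List (List (ℕ × List ℕ × List (List ℕ))) :=
  [D_00.b0, D_00.b1, D_00.b2, D_00.b3, D_00.b4, D_00.b5, D_00.b6, D_00.b7, D_00.b8, D_00.b9, D_00.b10, D_00.b11, D_00.b12, D_00.b13, D_00.b14, D_00.b15, D_00.b16, D_00.b17, D_00.b18, D_00.b19, D_00.b20, D_00.b21, D_00.b22, D_00.b23, D_00.b24, D_00.b25, D_00.b26, D_00.b27, D_00.b28, D_00.b29, D_00.b30, D_00.b31, D_00.b32, D_00.b33, D_00.b34, D_00.b35, D_00.b36, D_00.b37, D_00.b38, D_00.b39, D_00.b40, D_00.b41, D_00.b42, D_00.b43, D_00.b44, D_00.b45, D_00.b46, D_00.b47, D_00.b48, D_00.b49, D_00.b50, D_00.b51, D_00.b52, D_00.b53, D_00.b54, D_00.b55, D_00.b56, D_00.b57,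 D_00.b58, D_00.b59, D_00.b60, D_00.b61, D_00.b62, D_00.b63, D_00.b64, D_00.b65, D_00.b66, D_00.b67, D_00.b68, D_00.b69, D_00.b70, D_00.b71, D_00.b72, D_00.b73, D_00.b74, D_00.b75, D_00.b76, D_00.b77, D_00.b78, D_00.b79, D_00.b80, D_00.b81, D_00.b82, D_00.b83, D_00.b84, D_00.b85]

/-- the heavy rows -/
def hv : List ℕ := [1018, 1021, 1027, 1188, 1281, 1471, 1643, 1653, 1695, 1722, 1723, 1947, 2117, 2137, 2162, 2231, 2287, 2307, 2311, 2312, 2315, 2773, 2777, 3043, 3064, 3440, 3651, 3665, 3991, 3992, 4003, 4063, 4071, 4072, 4073, 4074, 4100, 4123, 4131, 4134, 4135, 4136, 4430, 4517, 4538, 4539, 4540, 4545, 4564, 4566, 4569, 4697, 4813, 4825, 4852, 4908, 4911, 4941, 4961, 4966, 4967, 4968, 4988, 4989, 4990, 4991, 4993, 4994, 5021, 5022, 5024, 5025, 5026, 5027, 5045, 5046, 5054, 5055, 5056, 5060, 5061, 5062, 5065, 5066]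

/-- all treated types -/
def tsD : List ℕ := hv ++ (bs.map fun b => b.map Prod.fst).flatten

/-- every type with at least 23 blocks is treated -/
theorem covD : covM typ (bm tsD) 5074 = true := by decide +kernel

theorem rows_bs (hg : GlueD) (ht : TieD) :
    ∀ b ∈ bs, ∀ t ∈ b.map Prod.fst, RowDead typ nl lane t := by
  have h := @rowDead_of_batch typ nl lane oD (dok_oD hg ht) typ_lt lane_lt
  intro b hb
  simp only [bs, List.mem_cons, List.not_mem_nil, or_false] at hb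
  rcases hb with rfl | rfl | rfl | rfl | rfl | rfl | rfl | rfl | rfl | rfl | rfl | rfl | rfl | rfl | rfl | rfl | rfl | rfl | rfl | rfl | rfl | rfl | rfl | rfl | rfl | rfl | rfl | rfl | rfl | rfl | rfl | rfl | rfl | rfl | rfl | rfl | rfl | rfl | rfl | rfl | rfl | rfl | rfl | rfl | rfl | rfl | rfl | rfl | rfl | rfl | rfl | rfl | rfl | rfl | rfl | rfl | rfl | rfl | rfl | rfl | rfl | rfl | rfl | rfl | rfl | rfl | rfl | rfl | rfl | rfl | rfl | rfl | rfl | rfl | rfl | rfl | rfl | rfl | rfl | rfl | rfl | rfl | rfl | rfl | rfl | rfl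
  · exact h D_00.kb0 Tie.t0
  · exact h D_00.kb1 Tie.t1
  · exact h D_00.kb2 Tie.t2
  · exact h D_00.kb3 Tie.t3
  · exact h D_00.kb4 Tie.t4
  · exact h D_00.kb5 Tie.t5
  · exact h D_00.kb6 Tie.t6
  · exact h D_00.kb7 Tie.t7
  · exact h D_00.kb8 Tie.t8
  · exact h D_00.kb9 Tie.t9
  · exact h D_00.kb10 Tie.t10
  · exact h D_00.kb11 Tie.t11
  · exact h D_00.kb12 Tie.t12
  · exact h D_00.kb13 Tie.t13
  · exact h D_00.kb14 Tie.t14
  · exact h D_00.kb15 Tie.t15
  · exact h D_00.kb16 Tie.t16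
  · exact h D_00.kb17 Tie.t17
  · exact h D_00.kb18 Tie.t18
  · exact h D_00.kb19 Tie.t19
  · exact h D_00.kb20 Tie.t20
  · exact h D_00.kb21 Tie.t21
  · exact h D_00.kb22 Tie.t22
  · exact h D_00.kb23 Tie.t23
  · exact h D_00.kb24 Tie.t24
  · exact h D_00.kb25 Tie.t25
  · exact h D_00.kb26 Tie.t26
  · exact h D_00.kb27 Tie.t27
  · exact h D_00.kb28 Tie.t28
  · exact h D_00.kb29 Tie.t29
  · exact h D_00.kb30 Tie.t30
  · exact h D_00.kb31 Tie.t31
  · exact h D_00.kb32 Tie.t32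
  · exact h D_00.kb33 Tie.t33
  · exact h D_00.kb34 Tie.t34
  · exact h D_00.kb35 Tie.t35
  · exact h D_00.kb36 Tie.t36
  · exact h D_00.kb37 Tie.t37
  · exact h D_00.kb38 Tie.t38
  · exact h D_00.kb39 Tie.t39
  · exact h D_00.kb40 Tie.t40
  · exact h D_00.kb41 Tie.t41
  · exact h D_00.kb42 Tie.t42
  · exact h D_00.kb43 Tie.t43
  · exact h D_00.kb44 Tie.t44
  · exact h D_00.kb45 Tie.t45
  · exact h D_00.kb46 Tie.t46
  · exact h D_00.kb47 Tie.t47
  · exact h D_00.kb48 Tie.t48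
  · exact h D_00.kb49 Tie.t49
  · exact h D_00.kb50 Tie.t50
  · exact h D_00.kb51 Tie.t51
  · exact h D_00.kb52 Tie.t52
  · exact h D_00.kb53 Tie.t53
  · exact h D_00.kb54 Tie.t54
  · exact h D_00.kb55 Tie.t55
  · exact h D_00.kb56 Tie.t56
  · exact h D_00.kb57 Tie.t57
  · exact h D_00.kb58 Tie.t58
  · exact h D_00.kb59 Tie.t59
  · exact h D_00.kb60 Tie.t60
  · exact h D_00.kb61 Tie.t61
  · exact h D_00.kb62 Tie.t62
  · exact h D_00.kb63 Tie.t63
  · exact h D_00.kb64 Tie.t64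
  · exact h D_00.kb65 Tie.t65
  · exact h D_00.kb66 Tie.t66
  · exact h D_00.kb67 Tie.t67
  · exact h D_00.kb68 Tie.t68
  · exact h D_00.kb69 Tie.t69
  · exact h D_00.kb70 Tie.t70
  · exact h D_00.kb71 Tie.t71
  · exact h D_00.kb72 Tie.t72
  · exact h D_00.kb73 Tie.t73
  · exact h D_00.kb74 Tie.t74
  · exact h D_00.kb75 Tie.t75
  · exact h D_00.kb76 Tie.t76
  · exact h D_00.kb77 Tie.t77
  · exact h D_00.kb78 Tie.t78
  · exact h D_00.kb79 Tie.t79
  · exact h D_00.kb80 Tie.t80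
  · exact h D_00.kb81 Tie.t81
  · exact h D_00.kb82 Tie.t82
  · exact h D_00.kb83 Tie.t83
  · exact h D_00.kb84 Tie.t84
  · exact h D_00.kb85 Tie.t85

theorem rows_hv (hg : GlueD) (ht : TieD) : ∀ t ∈ hv, RowDead typ nl lane t := by
  intro t h
  simp only [hv, List.mem_cons, List.not_mem_nil, or_false] at h
  rcases h with rfl | rfl | rfl | rfl | rfl | rfl | rfl | rfl | rfl | rfl | rfl | rfl | rfl | rfl | rfl | rfl | rfl | rfl | rfl | rfl | rfl | rfl | rfl | rfl | rfl | rfl | rfl | rfl | rfl | rfl | rfl | rfl | rfl | rfl | rfl | rfl | rfl | rfl | rfl | rfl | rfl | rfl | rfl | rfl | rfl | rfl | rfl | rfl | rfl | rfl | rfl | rfl | rfl | rfl | rfl | rfl | rfl | rfl | rfl | rfl | rfl | rfl | rfl | rfl | rfl | rfl | rfl | rfl | rfl | rfl | rfl | rfl | rfl | rfl | rfl | rfl | rfl | rfl | rfl | rfl | rfl | rfl | rfl | rfl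
  · exact r1018 hg ht
  · exact r1021 hg ht
  · exact r1027 hg ht
  · exact r1188 hg ht
  · exact r1281 hg ht
  · exact r1471 hg ht
  · exact r1643 hg ht
  · exact r1653 hg ht
  · exact r1695 hg ht
  · exact r1722 hg ht
  · exact r1723 hg ht
  · exact r1947 hg ht
  · exact r2117 hg ht
  · exact r2137 hg ht
  · exact r2162 hg ht
  · exact r2231 hg ht
  · exact r2287 hg ht
  · exact r2307 hg ht
  · exact r2311 hg ht
  · exact r2312 hg ht
  · exact r2315 hg ht
  · exact r2773 hg ht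
  · exact r2777 hg ht
  · exact r3043 hg ht
  · exact r3064 hg ht
  · exact r3440 hg ht
  · exact r3651 hg ht
  · exact r3665 hg ht
  · exact r3991 hg ht
  · exact r3992 hg ht
  · exact r4003 hg ht
  · exact r4063 hg ht
  · exact r4071 hg ht
  · exact r4072 hg ht
  · exact r4073 hg ht
  · exact r4074 hg ht
  · exact r4100 hg ht
  · exact r4123 hg ht
  · exact r4131 hg ht
  · exact r4134 hg ht
  · exact r4135 hg ht
  · exact r4136 hg ht
  · exact r4430 hg ht
  · exact r4517 hg ht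
  · exact r4538 hg ht
  · exact r4539 hg ht
  · exact r4540 hg ht
  · exact r4545 hg ht
  · exact r4564 hg ht
  · exact r4566 hg ht
  · exact r4569 hg ht
  · exact r4697 hg ht
  · exact r4813 hg ht
  · exact r4825 hg ht
  · exact r4852 hg ht
  · exact r4908 hg ht
  · exact r4911 hg ht
  · exact r4941 hg ht
  · exact r4961 hg ht
  · exact r4966 hg ht
  · exact r4967 hg ht
  · exact r4968 hg ht
  · exact r4988 hg ht
  · exact r4989 hg ht
  · exact r4990 hg ht
  · exact r4991 hg ht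
  · exact r4993 hg ht
  · exact r4994 hg ht
  · exact r5021 hg ht
  · exact r5022 hg ht
  · exact r5024 hg ht
  · exact r5025 hg ht
  · exact r5026 hg ht
  · exact r5027 hg ht
  · exact r5045 hg ht
  · exact r5046 hg ht
  · exact r5054 hg ht
  · exact r5055 hg ht
  · exact r5056 hg ht
  · exact r5060 hg ht
  · exact r5061 hg ht
  · exact r5062 hg ht
  · exact r5065 hg ht
  · exact r5066 hg ht

/-- **stage D: all rows are dead** -/
theorem rowsD (hg : GlueD) (ht : TieD) : ∀ t ∈ tsD, RowDead typ nl lane t := by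
  intro t h
  rcases List.mem_append.1 h with h | h
  · exact rows_hv hg ht t h
  · obtain ⟨l, hl, h1⟩ := List.mem_flatten.1 h
    obtain ⟨b, hb, rfl⟩ := List.mem_map.1 hl
    exact rows_bs hg ht b hb t h1

end Pool.Agent.Gen.TY.D
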