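import Pool.Agent.Gen.TY.D.Tie

/-!
MP_8ee768_co, project TH-Y', stage D: all rows are dead.
-/

set_option autoImplicit false
set_option maxRecDepth 100000

namespace Pool.Agent.Gen.TY.D

open Pool.Agent.Helper47.TY
open Pool.Agent.Helper7.TB (typ nl lane typ_lt lane_lt)
open Pool.Agent.Gen.TY.D.Rows

variable (hg : GlueD) (ht : TieD)

include hg ht

theorem r1018 : RowDead typ nl lane 1018 :=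
  rowDead_of_units (dok_oD hg ht) typ_lt lane_lt (tieB_mem Tie.tl1018 (1018, l1018) (List.mem_singleton.2 rfl))
    (nss := [[6], [5], [4], [3], [2], [1]]) (by decide +kernel)
   ⟨⟨⟨_, D_00.u1018_0_0⟩, trivial⟩,
    ⟨⟨_, D_00.u1018_1_1⟩, trivial⟩,
    ⟨⟨_, D_00.u1018_2_2⟩, trivial⟩,
    ⟨⟨_, D_00.u1018_3_3⟩, trivial⟩,
    ⟨⟨_, D_00.u1018_4_4⟩, trivial⟩,
    ⟨⟨_, D_00.u1018_5_5⟩, trivial⟩, trivial⟩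

theorem r1021 : RowDead typ nl lane 1021 :=
  rowDead_of_units (dok_oD hg ht) typ_lt lane_lt (tieB_mem Tie.tl1021 (1021, l1021) (List.mem_singleton.2 rfl))
    (nss := [[3, 1], [1, 1, 1], [2], [1]]) (by decide +kernel)
   ⟨⟨⟨_, D_00.u1021_0_0⟩, ⟨_, D_00.u1021_0_3⟩, trivial⟩,
    ⟨⟨_, D_00.u1021_1_1⟩, ⟨_, D_00.u1021_1_2⟩, ⟨_, D_00.u1021_1_3⟩, trivial⟩,
    ⟨⟨_, D_00.u1021_2_2⟩, trivial⟩,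
    ⟨⟨_, D_00.u1021_3_3⟩, trivial⟩, trivial⟩

theorem r1027 : RowDead typ nl lane 1027 :=
  rowDead_of_units (dok_oD hg ht) typ_lt lane_lt (tieB_mem Tie.tl1027 (1027, l1027) (List.mem_singleton.2 rfl))
    (nss := [[12], [11], [10], [9], [8], [7], [6], [5], [4], [3], [2], [1]]) (by decide +kernel)
   ⟨⟨⟨_, D_00.u1027_0_0⟩, trivial⟩,
    ⟨⟨_, D_00.u1027_1_1⟩, trivial⟩,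
    ⟨⟨_, D_00.u1027_2_2⟩, trivial⟩,
    ⟨⟨_, D_00.u1027_3_3⟩, trivial⟩,
    ⟨⟨_, D_00.u1027_4_4⟩, trivial⟩,
    ⟨⟨_, D_00.u1027_5_5⟩, trivial⟩,
    ⟨⟨_, D_00.u1027_6_6⟩, trivial⟩,
    ⟨⟨_, D_00.u1027_7_7⟩, trivial⟩,
    ⟨⟨_, D_00.u1027_8_8⟩, trivial⟩,
    ⟨⟨_, D_00.u1027_9_9⟩, trivial⟩,
    ⟨⟨_, D_00.u1027_10_10⟩, trivial⟩,
    ⟨⟨_, D_00.u1027_11_11⟩, trivial⟩, trivial⟩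

theorem r1188 : RowDead typ nl lane 1188 :=
  rowDead_of_units (dok_oD hg ht) typ_lt lane_lt (tieB_mem Tie.tl1188 (1188, l1188) (List.mem_singleton.2 rfl))
    (nss := [[2, 1, 1], [2, 1], [2], [1]]) (by decide +kernel)
   ⟨⟨⟨_, D_00.u1188_0_0⟩, ⟨_, D_00.u1188_0_2⟩, ⟨_, D_00.u1188_0_3⟩, trivial⟩,
    ⟨⟨_, D_00.u1188_1_1⟩, ⟨_, D_00.u1188_1_3⟩, trivial⟩,
    ⟨⟨_, D_00.u1188_2_2⟩, trivial⟩,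
    ⟨⟨_, D_00.u1188_3_3⟩, trivial⟩, trivial⟩

theorem r1281 : RowDead typ nl lane 1281 :=
  rowDead_of_units (dok_oD hg ht) typ_lt lane_lt (tieB_mem Tie.tl1281 (1281, l1281) (List.mem_singleton.2 rfl))
    (nss := [[8], [7], [6], [5], [4], [3], [2], [1]]) (by decide +kernel)
   ⟨⟨⟨_, D_00.u1281_0_0⟩, trivial⟩,
    ⟨⟨_, D_00.u1281_1_1⟩, trivial⟩,
    ⟨⟨_, D_00.u1281_2_2⟩, trivial⟩,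
    ⟨⟨_, D_00.u1281_3_3⟩, trivial⟩,
    ⟨⟨_, D_00.u1281_4_4⟩, trivial⟩,
    ⟨⟨_, D_00.u1281_5_5⟩, trivial⟩,
    ⟨⟨_, D_00.u1281_6_6⟩, trivial⟩,
    ⟨⟨_, D_00.u1281_7_7⟩, trivial⟩, trivial⟩

theorem r1471 : RowDead typ nl lane 1471 :=
  rowDead_of_units (dok_oD hg ht) typ_lt lane_lt (tieB_mem Tie.tl1471 (1471, l1471) (List.mem_singleton.2 rfl))
    (nss := [[3, 1], [1, 1, 1], [2], [1]]) (by decide +kernel)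
   ⟨⟨⟨_, D_00.u1471_0_0⟩, ⟨_, D_00.u1471_0_3⟩, trivial⟩,
    ⟨⟨_, D_00.u1471_1_1⟩, ⟨_, D_00.u1471_1_2⟩, ⟨_, D_00.u1471_1_3⟩, trivial⟩,
    ⟨⟨_, D_00.u1471_2_2⟩, trivial⟩,
    ⟨⟨_, D_00.u1471_3_3⟩, trivial⟩, trivial⟩

theorem r1643 : RowDead typ nl lane 1643 :=
  rowDead_of_units (dok_oD hg ht) typ_lt lane_lt (tieB_mem Tie.tl1643 (1643, l1643) (List.mem_singleton.2 rfl))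
    (nss := [[4, 2], [4, 1], [4], [3], [2], [1]]) (by decide +kernel)
   ⟨⟨⟨_, D_00.u1643_0_0⟩, ⟨_, D_00.u1643_0_4⟩, trivial⟩,
    ⟨⟨_, D_00.u1643_1_1⟩, ⟨_, D_00.u1643_1_5⟩, trivial⟩,
    ⟨⟨_, D_00.u1643_2_2⟩, trivial⟩,
    ⟨⟨_, D_00.u1643_3_3⟩, trivial⟩,
    ⟨⟨_, D_00.u1643_4_4⟩, trivial⟩,
    ⟨⟨_, D_00.u1643_5_5⟩, trivial⟩, trivial⟩

theorem r1653 : RowDead typ nl lane 1653 :=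
  rowDead_of_units (dok_oD hg ht) typ_lt lane_lt (tieB_mem Tie.tl1653 (1653, l1653) (List.mem_singleton.2 rfl))
    (nss := [[1, 1, 1], [2], [1]]) (by decide +kernel)
   ⟨⟨⟨_, D_00.u1653_0_0⟩, ⟨_, D_00.u1653_0_1⟩, ⟨_, D_00.u1653_0_2⟩, trivial⟩,
    ⟨⟨_, D_00.u1653_1_1⟩, trivial⟩,
    ⟨⟨_, D_00.u1653_2_2⟩, trivial⟩, trivial⟩

theorem r1695 : RowDead typ nl lane 1695 :=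
  rowDead_of_units (dok_oD hg ht) typ_lt lane_lt (tieB_mem Tie.tl1695 (1695, l1695) (List.mem_singleton.2 rfl))
    (nss := [[6], [5], [4], [3], [2], [1]]) (by decide +kernel)
   ⟨⟨⟨_, D_00.u1695_0_0⟩, trivial⟩,
    ⟨⟨_, D_00.u1695_1_1⟩, trivial⟩,
    ⟨⟨_, D_00.u1695_2_2⟩, trivial⟩,
    ⟨⟨_, D_00.u1695_3_3⟩, trivial⟩,
    ⟨⟨_, D_00.u1695_4_4⟩, trivial⟩,
    ⟨⟨_, D_00.u1695_5_5⟩, trivial⟩, trivial⟩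

theorem r1722 : RowDead typ nl lane 1722 :=
  rowDead_of_units (dok_oD hg ht) typ_lt lane_lt (tieB_mem Tie.tl1722 (1722, l1722) (List.mem_singleton.2 rfl))
    (nss := [[3, 1], [3], [2], [1]]) (by decide +kernel)
   ⟨⟨⟨_, D_00.u1722_0_0⟩, ⟨_, D_00.u1722_0_3⟩, trivial⟩,
    ⟨⟨_, D_00.u1722_1_1⟩, trivial⟩,
    ⟨⟨_, D_00.u1722_2_2⟩, trivial⟩,
    ⟨⟨_, D_00.u1722_3_3⟩, trivial⟩, trivial⟩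

theorem r1723 : RowDead typ nl lane 1723 :=
  rowDead_of_units (dok_oD hg ht) typ_lt lane_lt (tieB_mem Tie.tl1723 (1723, l1723) (List.mem_singleton.2 rfl))
    (nss := [[3, 1], [3], [2], [1]]) (by decide +kernel)
   ⟨⟨⟨_, D_00.u1723_0_0⟩, ⟨_, D_00.u1723_0_3⟩, trivial⟩,
    ⟨⟨_, D_00.u1723_1_1⟩, trivial⟩,
    ⟨⟨_, D_00.u1723_2_2⟩, trivial⟩,
    ⟨⟨_, D_00.u1723_3_3⟩, trivial⟩, trivial⟩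

theorem r1947 : RowDead typ nl lane 1947 :=
  rowDead_of_units (dok_oD hg ht) typ_lt lane_lt (tieB_mem Tie.tl1947 (1947, l1947) (List.mem_singleton.2 rfl))
    (nss := [[1, 1], [1]]) (by decide +kernel)
   ⟨⟨⟨_, D_00.u1947_0_0⟩, ⟨_, D_00.u1947_0_1⟩, trivial⟩,
    ⟨⟨_, D_00.u1947_1_1⟩, trivial⟩, trivial⟩

theorem r2117 : RowDead typ nl lane 2117 :=
  rowDead_of_units (dok_oD hg ht) typ_lt lane_lt (tieB_mem Tie.tl2117 (2117, l2117) (List.mem_singleton.2 rfl))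
    (nss := [[1, 1], [1]]) (by decide +kernel)
   ⟨⟨⟨_, D_00.u2117_0_0⟩, ⟨_, D_00.u2117_0_1⟩, trivial⟩,
    ⟨⟨_, D_00.u2117_1_1⟩, trivial⟩, trivial⟩

theorem r2137 : RowDead typ nl lane 2137 :=
  rowDead_of_units (dok_oD hg ht) typ_lt lane_lt (tieB_mem Tie.tl2137 (2137, l2137) (List.mem_singleton.2 rfl))
    (nss := [[6], [5], [4], [3], [2], [1]]) (by decide +kernel)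
   ⟨⟨⟨_, D_00.u2137_0_0⟩, trivial⟩,
    ⟨⟨_, D_00.u2137_1_1⟩, trivial⟩,
    ⟨⟨_, D_00.u2137_2_2⟩, trivial⟩,
    ⟨⟨_, D_00.u2137_3_3⟩, trivial⟩,
    ⟨⟨_, D_00.u2137_4_4⟩, trivial⟩,
    ⟨⟨_, D_00.u2137_5_5⟩, trivial⟩, trivial⟩

theorem r2162 : RowDead typ nl lane 2162 :=
  rowDead_of_units (dok_oD hg ht) typ_lt lane_lt (tieB_mem Tie.tl2162 (2162, l2162) (List.mem_singleton.2 rfl))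
    (nss := [[3, 1], [1, 1, 1], [2], [1]]) (by decide +kernel)
   ⟨⟨⟨_, D_00.u2162_0_0⟩, ⟨_, D_00.u2162_0_3⟩, trivial⟩,
    ⟨⟨_, D_00.u2162_1_1⟩, ⟨_, D_00.u2162_1_2⟩, ⟨_, D_01.u2162_1_3⟩, trivial⟩,
    ⟨⟨_, D_01.u2162_2_2⟩, trivial⟩,
    ⟨⟨_, D_01.u2162_3_3⟩, trivial⟩, trivial⟩

theorem r2231 : RowDead typ nl lane 2231 :=
  rowDead_of_units (dok_oD hg ht) typ_lt lane_lt (tieB_mem Tie.tl2231 (2231, l2231) (List.mem_singleton.2 rfl))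
    (nss := [[6], [5], [4], [3], [2], [1]]) (by decide +kernel)
   ⟨⟨⟨_, D_01.u2231_0_0⟩, trivial⟩,
    ⟨⟨_, D_01.u2231_1_1⟩, trivial⟩,
    ⟨⟨_, D_01.u2231_2_2⟩, trivial⟩,
    ⟨⟨_, D_01.u2231_3_3⟩, trivial⟩,
    ⟨⟨_, D_01.u2231_4_4⟩, trivial⟩,
    ⟨⟨_, D_01.u2231_5_5⟩, trivial⟩, trivial⟩

theorem r2287 : RowDead typ nl lane 2287 :=
  rowDead_of_units (dok_oD hg ht) typ_lt lane_lt (tieB_mem Tie.tl2287 (2287, l2287) (List.mem_singleton.2 rfl))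
    (nss := [[2, 1], [1, 1], [1]]) (by decide +kernel)
   ⟨⟨⟨_, D_01.u2287_0_0⟩, ⟨_, D_01.u2287_0_2⟩, trivial⟩,
    ⟨⟨_, D_01.u2287_1_1⟩, ⟨_, D_01.u2287_1_2⟩, trivial⟩,
    ⟨⟨_, D_01.u2287_2_2⟩, trivial⟩, trivial⟩

theorem r2307 : RowDead typ nl lane 2307 :=
  rowDead_of_units (dok_oD hg ht) typ_lt lane_lt (tieB_mem Tie.tl2307 (2307, l2307) (List.mem_singleton.2 rfl))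
    (nss := [[21], [20], [19], [18], [17], [16], [15], [14], [13], [12], [11], [10], [9], [8], [7], [6], [5], [4], [3], [2], [1]]) (by decide +kernel)
   ⟨⟨⟨_, D_01.u2307_0_0⟩, trivial⟩,
    ⟨⟨_, D_01.u2307_1_1⟩, trivial⟩,
    ⟨⟨_, D_01.u2307_2_2⟩, trivial⟩,
    ⟨⟨_, D_01.u2307_3_3⟩, trivial⟩,
    ⟨⟨_, D_01.u2307_4_4⟩, trivial⟩,
    ⟨⟨_, D_01.u2307_5_5⟩, trivial⟩,
    ⟨⟨_, D_01.u2307_6_6⟩, trivial⟩,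
    ⟨⟨_, D_01.u2307_7_7⟩, trivial⟩,
    ⟨⟨_, D_01.u2307_8_8⟩, trivial⟩,
    ⟨⟨_, D_01.u2307_9_9⟩, trivial⟩,
    ⟨⟨_, D_01.u2307_10_10⟩, trivial⟩,
    ⟨⟨_, D_01.u2307_11_11⟩, trivial⟩,
    ⟨⟨_, D_01.u2307_12_12⟩, trivial⟩,
    ⟨⟨_, D_01.u2307_13_13⟩, trivial⟩,
    ⟨⟨_, D_01.u2307_14_14⟩, trivial⟩,
    ⟨⟨_, D_01.u2307_15_15⟩, trivial⟩,
    ⟨⟨_, D_01.u2307_16_16⟩, trivial⟩,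
    ⟨⟨_, D_01.u2307_17_17⟩, trivial⟩,
    ⟨⟨_, D_01.u2307_18_18⟩, trivial⟩,
    ⟨⟨_, D_01.u2307_19_19⟩, trivial⟩,
    ⟨⟨_, D_01.u2307_20_20⟩, trivial⟩, trivial⟩

theorem r2311 : RowDead typ nl lane 2311 :=
  rowDead_of_units (dok_oD hg ht) typ_lt lane_lt (tieB_mem Tie.tl2311 (2311, l2311) (List.mem_singleton.2 rfl))
    (nss := [[8], [7], [6], [5], [4], [3], [2], [1]]) (by decide +kernel)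
   ⟨⟨⟨_, D_01.u2311_0_0⟩, trivial⟩,
    ⟨⟨_, D_01.u2311_1_1⟩, trivial⟩,
    ⟨⟨_, D_01.u2311_2_2⟩, trivial⟩,
    ⟨⟨_, D_01.u2311_3_3⟩, trivial⟩,
    ⟨⟨_, D_01.u2311_4_4⟩, trivial⟩,
    ⟨⟨_, D_01.u2311_5_5⟩, trivial⟩,
    ⟨⟨_, D_01.u2311_6_6⟩, trivial⟩,
    ⟨⟨_, D_01.u2311_7_7⟩, trivial⟩, trivial⟩

theorem r2312 : RowDead typ nl lane 2312 :=
  rowDead_of_units (dok_oD hg ht) typ_lt lane_lt (tieB_mem Tie.tl2312 (2312, l2312) (List.mem_singleton.2 rfl))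
    (nss := [[1, 1, 1, 1], [1, 1, 1], [1, 1], [1]]) (by decide +kernel)
   ⟨⟨⟨_, D_01.u2312_0_0⟩, ⟨_, D_01.u2312_0_1⟩, ⟨_, D_01.u2312_0_2⟩, ⟨_, D_01.u2312_0_3⟩, trivial⟩,
    ⟨⟨_, D_01.u2312_1_1⟩, ⟨_, D_01.u2312_1_2⟩, ⟨_, D_01.u2312_1_3⟩, trivial⟩,
    ⟨⟨_, D_01.u2312_2_2⟩, ⟨_, D_01.u2312_2_3⟩, trivial⟩,
    ⟨⟨_, D_01.u2312_3_3⟩, trivial⟩, trivial⟩

theorem r2315 : RowDead typ nl lane 2315 :=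
  rowDead_of_units (dok_oD hg ht) typ_lt lane_lt (tieB_mem Tie.tl2315 (2315, l2315) (List.mem_singleton.2 rfl))
    (nss := [[13, 4], [13, 3], [12, 3], [11, 3], [3, 1, 1, 2, 1, 1, 1, 3], [2, 1, 1, 2, 1, 1, 1, 3], [1, 1, 2, 4, 1, 2], [3, 3, 1, 3], [4, 2, 1, 1, 1], [4, 2, 1, 1], [7], [3, 1, 2], [3, 2], [1, 1, 2], [3], [2], [1]]) (by decide +kernel)
   ⟨⟨⟨_, D_01.u2315_0_0⟩, ⟨_, D_01.u2315_0_13⟩, trivial⟩,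
    ⟨⟨_, D_01.u2315_1_1⟩, ⟨_, D_01.u2315_1_14⟩, trivial⟩,
    ⟨⟨_, D_01.u2315_2_2⟩, ⟨_, D_01.u2315_2_14⟩, trivial⟩,
    ⟨⟨_, D_01.u2315_3_3⟩, ⟨_, D_01.u2315_3_14⟩, trivial⟩,
    ⟨⟨_, D_01.u2315_4_4⟩, ⟨_, D_01.u2315_4_7⟩, ⟨_, D_01.u2315_4_8⟩, ⟨_, D_01.u2315_4_9⟩, ⟨_, D_01.u2315_4_11⟩, ⟨_, D_01.u2315_4_12⟩, ⟨_, D_01.u2315_4_13⟩, ⟨_, D_01.u2315_4_14⟩, trivial⟩,
    ⟨⟨_, D_01.u2315_5_5⟩, ⟨_, D_01.u2315_5_7⟩, ⟨_, D_01.u2315_5_8⟩, ⟨_, D_01.u2315_5_9⟩, ⟨_, D_01.u2315_5_11⟩, ⟨_, D_01.u2315_5_12⟩, ⟨_, D_01.u2315_5_13⟩, ⟨_, D_01.u2315_5_14⟩, trivial⟩,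
    ⟨⟨_, D_01.u2315_6_6⟩, ⟨_, D_01.u2315_6_7⟩, ⟨_, D_01.u2315_6_8⟩, ⟨_, D_01.u2315_6_10⟩, ⟨_, D_01.u2315_6_14⟩, ⟨_, D_01.u2315_6_15⟩, trivial⟩,
    ⟨⟨_, D_01.u2315_7_7⟩, ⟨_, D_01.u2315_7_10⟩, ⟨_, D_01.u2315_7_13⟩, ⟨_, D_01.u2315_7_14⟩, trivial⟩,
    ⟨⟨_, D_01.u2315_8_8⟩, ⟨_, D_01.u2315_8_12⟩, ⟨_, D_01.u2315_8_14⟩, ⟨_, D_01.u2315_8_15⟩, ⟨_, D_01.u2315_8_16⟩, trivial⟩,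
    ⟨⟨_, D_01.u2315_9_9⟩, ⟨_, D_01.u2315_9_13⟩, ⟨_, D_01.u2315_9_15⟩, ⟨_, D_01.u2315_9_16⟩, trivial⟩,
    ⟨⟨_, D_01.u2315_10_10⟩, trivial⟩,
    ⟨⟨_, D_01.u2315_11_11⟩, ⟨_, D_01.u2315_11_14⟩, ⟨_, D_01.u2315_11_15⟩, trivial⟩,
    ⟨⟨_, D_01.u2315_12_12⟩, ⟨_, D_01.u2315_12_15⟩, trivial⟩,
    ⟨⟨_, D_01.u2315_13_13⟩, ⟨_, D_01.u2315_13_14⟩, ⟨_, D_01.u2315_13_15⟩, trivial⟩,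
    ⟨⟨_, D_01.u2315_14_14⟩, trivial⟩,
    ⟨⟨_, D_01.u2315_15_15⟩, trivial⟩,
    ⟨⟨_, D_01.u2315_16_16⟩, trivial⟩, trivial⟩

theorem r2773 : RowDead typ nl lane 2773 :=
  rowDead_of_units (dok_oD hg ht) typ_lt lane_lt (tieB_mem Tie.tl2773 (2773, l2773) (List.mem_singleton.2 rfl))
    (nss := [[2, 1, 1], [2, 1], [2], [1]]) (by decide +kernel)
   ⟨⟨⟨_, D_01.u2773_0_0⟩, ⟨_, D_01.u2773_0_2⟩, ⟨_, D_01.u2773_0_3⟩, trivial⟩,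
    ⟨⟨_, D_01.u2773_1_1⟩, ⟨_, D_01.u2773_1_3⟩, trivial⟩,
    ⟨⟨_, D_01.u2773_2_2⟩, trivial⟩,
    ⟨⟨_, D_01.u2773_3_3⟩, trivial⟩, trivial⟩

theorem r2777 : RowDead typ nl lane 2777 :=
  rowDead_of_units (dok_oD hg ht) typ_lt lane_lt (tieB_mem Tie.tl2777 (2777, l2777) (List.mem_singleton.2 rfl))
    (nss := [[2, 1, 1], [2, 1], [2], [1]]) (by decide +kernel)
   ⟨⟨⟨_, D_01.u2777_0_0⟩, ⟨_, D_01.u2777_0_2⟩, ⟨_, D_01.u2777_0_3⟩, trivial⟩,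
    ⟨⟨_, D_01.u2777_1_1⟩, ⟨_, D_01.u2777_1_3⟩, trivial⟩,
    ⟨⟨_, D_01.u2777_2_2⟩, trivial⟩,
    ⟨⟨_, D_01.u2777_3_3⟩, trivial⟩, trivial⟩

theorem r3043 : RowDead typ nl lane 3043 :=
  rowDead_of_units (dok_oD hg ht) typ_lt lane_lt (tieB_mem Tie.tl3043 (3043, l3043) (List.mem_singleton.2 rfl))
    (nss := [[9], [8], [7], [6], [5], [4], [3], [2], [1]]) (by decide +kernel)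
   ⟨⟨⟨_, D_01.u3043_0_0⟩, trivial⟩,
    ⟨⟨_, D_01.u3043_1_1⟩, trivial⟩,
    ⟨⟨_, D_01.u3043_2_2⟩, trivial⟩,
    ⟨⟨_, D_01.u3043_3_3⟩, trivial⟩,
    ⟨⟨_, D_01.u3043_4_4⟩, trivial⟩,
    ⟨⟨_, D_01.u3043_5_5⟩, trivial⟩,
    ⟨⟨_, D_01.u3043_6_6⟩, trivial⟩,
    ⟨⟨_, D_01.u3043_7_7⟩, trivial⟩,
    ⟨⟨_, D_01.u3043_8_8⟩, trivial⟩, trivial⟩

theorem r3064 : RowDead typ nl lane 3064 :=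
  rowDead_of_units (dok_oD hg ht) typ_lt lane_lt (tieB_mem Tie.tl3064 (3064, l3064) (List.mem_singleton.2 rfl))
    (nss := [[9], [8], [7], [6], [5], [4], [3], [2], [1]]) (by decide +kernel)
   ⟨⟨⟨_, D_01.u3064_0_0⟩, trivial⟩,
    ⟨⟨_, D_01.u3064_1_1⟩, trivial⟩,
    ⟨⟨_, D_01.u3064_2_2⟩, trivial⟩,
    ⟨⟨_, D_01.u3064_3_3⟩, trivial⟩,
    ⟨⟨_, D_01.u3064_4_4⟩, trivial⟩,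
    ⟨⟨_, D_01.u3064_5_5⟩, trivial⟩,
    ⟨⟨_, D_01.u3064_6_6⟩, trivial⟩,
    ⟨⟨_, D_01.u3064_7_7⟩, trivial⟩,
    ⟨⟨_, D_01.u3064_8_8⟩, trivial⟩, trivial⟩

theorem r3440 : RowDead typ nl lane 3440 :=
  rowDead_of_units (dok_oD hg ht) typ_lt lane_lt (tieB_mem Tie.tl3440 (3440, l3440) (List.mem_singleton.2 rfl))
    (nss := [[3, 1], [3], [2], [1]]) (by decide +kernel)
   ⟨⟨⟨_, D_01.u3440_0_0⟩, ⟨_, D_01.u3440_0_3⟩, trivial⟩,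
    ⟨⟨_, D_01.u3440_1_1⟩, trivial⟩,
    ⟨⟨_, D_01.u3440_2_2⟩, trivial⟩,
    ⟨⟨_, D_01.u3440_3_3⟩, trivial⟩, trivial⟩

theorem r3651 : RowDead typ nl lane 3651 :=
  rowDead_of_units (dok_oD hg ht) typ_lt lane_lt (tieB_mem Tie.tl3651 (3651, l3651) (List.mem_singleton.2 rfl))
    (nss := [[4], [3], [2], [1]]) (by decide +kernel)
   ⟨⟨⟨_, D_01.u3651_0_0⟩, trivial⟩,
    ⟨⟨_, D_01.u3651_1_1⟩, trivial⟩,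
    ⟨⟨_, D_01.u3651_2_2⟩, trivial⟩,
    ⟨⟨_, D_01.u3651_3_3⟩, trivial⟩, trivial⟩

theorem r3665 : RowDead typ nl lane 3665 :=
  rowDead_of_units (dok_oD hg ht) typ_lt lane_lt (tieB_mem Tie.tl3665 (3665, l3665) (List.mem_singleton.2 rfl))
    (nss := [[2, 1, 1], [1, 1, 1], [2], [1]]) (by decide +kernel)
   ⟨⟨⟨_, D_01.u3665_0_0⟩, ⟨_, D_01.u3665_0_2⟩, ⟨_, D_01.u3665_0_3⟩, trivial⟩,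
    ⟨⟨_, D_01.u3665_1_1⟩, ⟨_, D_01.u3665_1_2⟩, ⟨_, D_01.u3665_1_3⟩, trivial⟩,
    ⟨⟨_, D_01.u3665_2_2⟩, trivial⟩,
    ⟨⟨_, D_01.u3665_3_3⟩, trivial⟩, trivial⟩

theorem r3991 : RowDead typ nl lane 3991 :=
  rowDead_of_units (dok_oD hg ht) typ_lt lane_lt (tieB_mem Tie.tl3991 (3991, l3991) (List.mem_singleton.2 rfl))
    (nss := [[39, 15], [37, 16], [35, 17], [34, 17], [40, 10], [39, 10], [37, 11], [35, 12], [32, 14], [31, 14], [39, 5], [37, 6], [38, 4], [37, 4], [40], [39], [38], [37], [14, 1, 9, 1, 11], [14, 1, 9, 1, 10], [10, 1, 14, 1, 8], [10, 1, 12, 1, 9], [15, 1, 9, 1, 6], [13, 1, 9, 1, 7], [11, 1, 13, 1, 4], [9, 1, 13, 1, 5], [13, 1, 10, 1, 3], [14, 1, 9, 1, 2], [10, 1, 13, 1, 1], [11, 1, 12, 1], [14, 1, 9], [14, 1, 8], [11,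 1, 10], [9, 1, 11], [15, 1, 4], [13, 1, 5], [11, 1, 6], [9, 1, 7], [13, 1, 2], [14, 1], [10, 1, 3], [11, 1, 1], [12], [11], [10], [9], [8], [7], [6], [5], [4], [3], [2], [1]]) (by decide +kernel)
   ⟨⟨⟨_, D_01.u3991_0_0⟩, ⟨_, D_01.u3991_0_39⟩, trivial⟩,
    ⟨⟨_, D_01.u3991_1_1⟩, ⟨_, D_01.u3991_1_38⟩, trivial⟩,
    ⟨⟨_, D_01.u3991_2_2⟩, ⟨_, D_01.u3991_2_37⟩, trivial⟩,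
    ⟨⟨_, D_01.u3991_3_3⟩, ⟨_, D_01.u3991_3_37⟩, trivial⟩,
    ⟨⟨_, D_01.u3991_4_4⟩, ⟨_, D_01.u3991_4_44⟩, trivial⟩,
    ⟨⟨_, D_01.u3991_5_5⟩, ⟨_, D_01.u3991_5_44⟩, trivial⟩,
    ⟨⟨_, D_01.u3991_6_6⟩, ⟨_, D_01.u3991_6_43⟩, trivial⟩,
    ⟨⟨_, D_01.u3991_7_7⟩, ⟨_, D_01.u3991_7_42⟩, trivial⟩,
    ⟨⟨_, D_01.u3991_8_8⟩, ⟨_, D_01.u3991_8_40⟩, trivial⟩,
    ⟨⟨_, D_01.u3991_9_9⟩, ⟨_, D_01.u3991_9_40⟩, trivial⟩,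
    ⟨⟨_, D_01.u3991_10_10⟩, ⟨_, D_01.u3991_10_49⟩, trivial⟩,
    ⟨⟨_, D_01.u3991_11_11⟩, ⟨_, D_01.u3991_11_48⟩, trivial⟩,
    ⟨⟨_, D_01.u3991_12_12⟩, ⟨_, D_01.u3991_12_50⟩, trivial⟩,
    ⟨⟨_, D_01.u3991_13_13⟩, ⟨_, D_01.u3991_13_50⟩, trivial⟩,
    ⟨⟨_, D_01.u3991_14_14⟩, trivial⟩,
    ⟨⟨_, D_01.u3991_15_15⟩, trivial⟩,
    ⟨⟨_, D_01.u3991_16_16⟩, trivial⟩,
    ⟨⟨_, D_01.u3991_17_17⟩, trivial⟩,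
    ⟨⟨_, D_01.u3991_18_18⟩, ⟨_, D_01.u3991_18_32⟩, ⟨_, D_01.u3991_18_33⟩, ⟨_, D_01.u3991_18_42⟩, ⟨_, D_01.u3991_18_43⟩, trivial⟩,
    ⟨⟨_, D_01.u3991_19_19⟩, ⟨_, D_01.u3991_19_33⟩, ⟨_, D_01.u3991_19_34⟩, ⟨_, D_01.u3991_19_43⟩, ⟨_, D_01.u3991_19_44⟩, trivial⟩,
    ⟨⟨_, D_01.u3991_20_20⟩, ⟨_, D_01.u3991_20_30⟩, ⟨_, D_01.u3991_20_31⟩, ⟨_, D_01.u3991_20_45⟩, ⟨_, D_01.u3991_20_46⟩, trivial⟩,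
    ⟨⟨_, D_01.u3991_21_21⟩, ⟨_, D_01.u3991_21_31⟩, ⟨_, D_01.u3991_21_32⟩, ⟨_, D_01.u3991_21_44⟩, ⟨_, D_01.u3991_21_45⟩, trivial⟩,
    ⟨⟨_, D_01.u3991_22_22⟩, ⟨_, D_01.u3991_22_37⟩, ⟨_, D_01.u3991_22_38⟩, ⟨_, D_01.u3991_22_47⟩, ⟨_, D_01.u3991_22_48⟩, trivial⟩,
    ⟨⟨_, D_01.u3991_23_23⟩, ⟨_, D_01.u3991_23_36⟩, ⟨_, D_01.u3991_23_37⟩, ⟨_, D_01.u3991_23_46⟩, ⟨_, D_01.u3991_23_47⟩, trivial⟩,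
    ⟨⟨_, D_01.u3991_24_24⟩, ⟨_, D_01.u3991_24_35⟩, ⟨_, D_01.u3991_24_36⟩, ⟨_, D_01.u3991_24_49⟩, ⟨_, D_01.u3991_24_50⟩, trivial⟩,
    ⟨⟨_, D_01.u3991_25_25⟩, ⟨_, D_01.u3991_25_34⟩, ⟨_, D_01.u3991_25_35⟩, ⟨_, D_01.u3991_25_48⟩, ⟨_, D_01.u3991_25_49⟩, trivial⟩,
    ⟨⟨_, D_01.u3991_26_26⟩, ⟨_, D_01.u3991_26_39⟩, ⟨_, D_01.u3991_26_40⟩, ⟨_, D_01.u3991_26_50⟩, ⟨_, D_01.u3991_26_51⟩, trivial⟩,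
    ⟨⟨_, D_01.u3991_27_27⟩, ⟨_, D_01.u3991_27_41⟩, ⟨_, D_01.u3991_27_42⟩, ⟨_, D_01.u3991_27_51⟩, ⟨_, D_01.u3991_27_52⟩, trivial⟩,
    ⟨⟨_, D_01.u3991_28_28⟩, ⟨_, D_01.u3991_28_38⟩, ⟨_, D_01.u3991_28_39⟩, ⟨_, D_01.u3991_28_52⟩, ⟨_, D_01.u3991_28_53⟩, trivial⟩,
    ⟨⟨_, D_01.u3991_29_29⟩, ⟨_, D_01.u3991_29_40⟩, ⟨_, D_02.u3991_29_41⟩, ⟨_, D_02.u3991_29_53⟩, trivial⟩,
    ⟨⟨_, D_02.u3991_30_30⟩, ⟨_, D_02.u3991_30_44⟩, ⟨_, D_02.u3991_30_45⟩, trivial⟩,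
    ⟨⟨_, D_02.u3991_31_31⟩, ⟨_, D_02.u3991_31_45⟩, ⟨_, D_02.u3991_31_46⟩, trivial⟩,
    ⟨⟨_, D_02.u3991_32_32⟩, ⟨_, D_02.u3991_32_43⟩, ⟨_, D_02.u3991_32_44⟩, trivial⟩,
    ⟨⟨_, D_02.u3991_33_33⟩, ⟨_, D_02.u3991_33_42⟩, ⟨_, D_02.u3991_33_43⟩, trivial⟩,
    ⟨⟨_, D_02.u3991_34_34⟩, ⟨_, D_02.u3991_34_49⟩, ⟨_, D_02.u3991_34_50⟩, trivial⟩,
    ⟨⟨_, D_02.u3991_35_35⟩, ⟨_, D_02.u3991_35_48⟩, ⟨_, D_02.u3991_35_49⟩, trivial⟩,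
    ⟨⟨_, D_02.u3991_36_36⟩, ⟨_, D_02.u3991_36_47⟩, ⟨_, D_02.u3991_36_48⟩, trivial⟩,
    ⟨⟨_, D_02.u3991_37_37⟩, ⟨_, D_02.u3991_37_46⟩, ⟨_, D_02.u3991_37_47⟩, trivial⟩,
    ⟨⟨_, D_02.u3991_38_38⟩, ⟨_, D_02.u3991_38_51⟩, ⟨_, D_02.u3991_38_52⟩, trivial⟩,
    ⟨⟨_, D_02.u3991_39_39⟩, ⟨_, D_02.u3991_39_53⟩, trivial⟩,
    ⟨⟨_, D_02.u3991_40_40⟩, ⟨_, D_02.u3991_40_50⟩, ⟨_, D_02.u3991_40_51⟩, trivial⟩,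
    ⟨⟨_, D_02.u3991_41_41⟩, ⟨_, D_02.u3991_41_52⟩, ⟨_, D_02.u3991_41_53⟩, trivial⟩,
    ⟨⟨_, D_02.u3991_42_42⟩, trivial⟩,
    ⟨⟨_, D_02.u3991_43_43⟩, trivial⟩,
    ⟨⟨_, D_02.u3991_44_44⟩, trivial⟩,
    ⟨⟨_, D_02.u3991_45_45⟩, trivial⟩,
    ⟨⟨_, D_02.u3991_46_46⟩, trivial⟩,
    ⟨⟨_, D_02.u3991_47_47⟩, trivial⟩,
    ⟨⟨_, D_02.u3991_48_48⟩, trivial⟩,
    ⟨⟨_, D_02.u3991_49_49⟩, trivial⟩,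
    ⟨⟨_, D_02.u3991_50_50⟩, trivial⟩,
    ⟨⟨_, D_02.u3991_51_51⟩, trivial⟩,
    ⟨⟨_, D_02.u3991_52_52⟩, trivial⟩,
    ⟨⟨_, D_02.u3991_53_53⟩, trivial⟩, trivial⟩

theorem r3992 : RowDead typ nl lane 3992 :=
  rowDead_of_units (dok_oD hg ht) typ_lt lane_lt (tieB_mem Tie.tl3992 (3992, l3992) (List.mem_singleton.2 rfl))
    (nss := [[33, 21], [31, 22], [33, 19], [31, 20], [31, 19], [31, 18], [46, 2], [44, 3], [43, 3], [43, 2], [44], [43], [42], [41], [40], [39], [38], [37], [18, 18], [18, 17], [15, 19], [14, 19], [32], [31], [30], [29], [15, 13], [14, 13], [14, 12], [11, 14], [24], [23], [22], [21], [20], [19], [18], [17], [16], [15], [14], [13], [7, 1, 2, 1, 1], [5, 1, 4, 1], [3, 1, 2, 1, 3], [1, 1, 4, 1, 2], [7, 1], [5, 1, 1], [3,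 1, 2], [1, 1, 3], [4], [3], [2], [1]]) (by decide +kernel)
   ⟨⟨⟨_, D_02.u3992_0_0⟩, ⟨_, D_02.u3992_0_33⟩, trivial⟩,
    ⟨⟨_, D_02.u3992_1_1⟩, ⟨_, D_02.u3992_1_32⟩, trivial⟩,
    ⟨⟨_, D_02.u3992_2_2⟩, ⟨_, D_02.u3992_2_35⟩, trivial⟩,
    ⟨⟨_, D_02.u3992_3_3⟩, ⟨_, D_02.u3992_3_34⟩, trivial⟩,
    ⟨⟨_, D_02.u3992_4_4⟩, ⟨_, D_02.u3992_4_35⟩, trivial⟩,
    ⟨⟨_, D_02.u3992_5_5⟩, ⟨_, D_02.u3992_5_36⟩, trivial⟩,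
    ⟨⟨_, D_02.u3992_6_6⟩, ⟨_, D_02.u3992_6_52⟩, trivial⟩,
    ⟨⟨_, D_02.u3992_7_7⟩, ⟨_, D_02.u3992_7_51⟩, trivial⟩,
    ⟨⟨_, D_02.u3992_8_8⟩, ⟨_, D_02.u3992_8_51⟩, trivial⟩,
    ⟨⟨_, D_02.u3992_9_9⟩, ⟨_, D_02.u3992_9_52⟩, trivial⟩,
    ⟨⟨_, D_02.u3992_10_10⟩, trivial⟩,
    ⟨⟨_, D_02.u3992_11_11⟩, trivial⟩,
    ⟨⟨_, D_02.u3992_12_12⟩, trivial⟩,
    ⟨⟨_, D_02.u3992_13_13⟩, trivial⟩,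
    ⟨⟨_, D_02.u3992_14_14⟩, trivial⟩,
    ⟨⟨_, D_02.u3992_15_15⟩, trivial⟩,
    ⟨⟨_, D_02.u3992_16_16⟩, trivial⟩,
    ⟨⟨_, D_02.u3992_17_17⟩, trivial⟩,
    ⟨⟨_, D_02.u3992_18_18⟩, ⟨_, D_02.u3992_18_36⟩, trivial⟩,
    ⟨⟨_, D_02.u3992_19_19⟩, ⟨_, D_02.u3992_19_37⟩, trivial⟩,
    ⟨⟨_, D_02.u3992_20_20⟩, ⟨_, D_02.u3992_20_35⟩, trivial⟩,
    ⟨⟨_, D_02.u3992_21_21⟩, ⟨_, D_02.u3992_21_35⟩, trivial⟩,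
    ⟨⟨_, D_02.u3992_22_22⟩, trivial⟩,
    ⟨⟨_, D_02.u3992_23_23⟩, trivial⟩,
    ⟨⟨_, D_02.u3992_24_24⟩, trivial⟩,
    ⟨⟨_, D_02.u3992_25_25⟩, trivial⟩,
    ⟨⟨_, D_02.u3992_26_26⟩, ⟨_, D_02.u3992_26_41⟩, trivial⟩,
    ⟨⟨_, D_02.u3992_27_27⟩, ⟨_, D_02.u3992_27_41⟩, trivial⟩,
    ⟨⟨_, D_02.u3992_28_28⟩, ⟨_, D_02.u3992_28_42⟩, trivial⟩,
    ⟨⟨_, D_02.u3992_29_29⟩, ⟨_, D_02.u3992_29_40⟩, trivial⟩,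
    ⟨⟨_, D_02.u3992_30_30⟩, trivial⟩,
    ⟨⟨_, D_02.u3992_31_31⟩, trivial⟩,
    ⟨⟨_, D_02.u3992_32_32⟩, trivial⟩,
    ⟨⟨_, D_02.u3992_33_33⟩, trivial⟩,
    ⟨⟨_, D_02.u3992_34_34⟩, trivial⟩,
    ⟨⟨_, D_02.u3992_35_35⟩, trivial⟩,
    ⟨⟨_, D_02.u3992_36_36⟩, trivial⟩,
    ⟨⟨_, D_02.u3992_37_37⟩, trivial⟩,
    ⟨⟨_, D_02.u3992_38_38⟩, trivial⟩,
    ⟨⟨_, D_02.u3992_39_39⟩, trivial⟩,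
    ⟨⟨_, D_02.u3992_40_40⟩, trivial⟩,
    ⟨⟨_, D_02.u3992_41_41⟩, trivial⟩,
    ⟨⟨_, D_02.u3992_42_42⟩, ⟨_, D_02.u3992_42_49⟩, ⟨_, D_02.u3992_42_50⟩, ⟨_, D_02.u3992_42_52⟩, ⟨_, D_02.u3992_42_53⟩, trivial⟩,
    ⟨⟨_, D_02.u3992_43_43⟩, ⟨_, D_02.u3992_43_48⟩, ⟨_, D_02.u3992_43_49⟩, ⟨_, D_02.u3992_43_53⟩, trivial⟩,
    ⟨⟨_, D_02.u3992_44_44⟩, ⟨_, D_02.u3992_44_47⟩, ⟨_, D_02.u3992_44_48⟩, ⟨_, D_02.u3992_44_50⟩, ⟨_, D_02.u3992_44_51⟩, trivial⟩,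
    ⟨⟨_, D_02.u3992_45_45⟩, ⟨_, D_02.u3992_45_46⟩, ⟨_, D_02.u3992_45_47⟩, ⟨_, D_02.u3992_45_51⟩, ⟨_, D_02.u3992_45_52⟩, trivial⟩,
    ⟨⟨_, D_02.u3992_46_46⟩, ⟨_, D_02.u3992_46_53⟩, trivial⟩,
    ⟨⟨_, D_02.u3992_47_47⟩, ⟨_, D_02.u3992_47_52⟩, ⟨_, D_02.u3992_47_53⟩, trivial⟩,
    ⟨⟨_, D_02.u3992_48_48⟩, ⟨_, D_02.u3992_48_51⟩, ⟨_, D_02.u3992_48_52⟩, trivial⟩,
    ⟨⟨_, D_02.u3992_49_49⟩, ⟨_, D_02.u3992_49_50⟩, ⟨_, D_02.u3992_49_51⟩, trivial⟩,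
    ⟨⟨_, D_02.u3992_50_50⟩, trivial⟩,
    ⟨⟨_, D_02.u3992_51_51⟩, trivial⟩,
    ⟨⟨_, D_02.u3992_52_52⟩, trivial⟩,
    ⟨⟨_, D_02.u3992_53_53⟩, trivial⟩, trivial⟩

theorem r4003 : RowDead typ nl lane 4003 :=
  rowDead_of_units (dok_oD hg ht) typ_lt lane_lt (tieB_mem Tie.tl4003 (4003, l4003) (List.mem_singleton.2 rfl))
    (nss := [[7], [6], [5], [4], [3], [2], [1]]) (by decide +kernel)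
   ⟨⟨⟨_, D_02.u4003_0_0⟩, trivial⟩,
    ⟨⟨_, D_02.u4003_1_1⟩, trivial⟩,
    ⟨⟨_, D_02.u4003_2_2⟩, trivial⟩,
    ⟨⟨_, D_02.u4003_3_3⟩, trivial⟩,
    ⟨⟨_, D_02.u4003_4_4⟩, trivial⟩,
    ⟨⟨_, D_02.u4003_5_5⟩, trivial⟩,
    ⟨⟨_, D_02.u4003_6_6⟩, trivial⟩, trivial⟩

theorem r4063 : RowDead typ nl lane 4063 :=
  rowDead_of_units (dok_oD hg ht) typ_lt lane_lt (tieB_mem Tie.tl4063 (4063, l4063) (List.mem_singleton.2 rfl))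
    (nss := [[10], [9], [8], [7], [6], [5], [4], [3], [2], [1]]) (by decide +kernel)
   ⟨⟨⟨_, D_02.u4063_0_0⟩, trivial⟩,
    ⟨⟨_, D_02.u4063_1_1⟩, trivial⟩,
    ⟨⟨_, D_02.u4063_2_2⟩, trivial⟩,
    ⟨⟨_, D_02.u4063_3_3⟩, trivial⟩,
    ⟨⟨_, D_02.u4063_4_4⟩, trivial⟩,
    ⟨⟨_, D_02.u4063_5_5⟩, trivial⟩,
    ⟨⟨_, D_02.u4063_6_6⟩, trivial⟩,
    ⟨⟨_, D_02.u4063_7_7⟩, trivial⟩,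
    ⟨⟨_, D_02.u4063_8_8⟩, trivial⟩,
    ⟨⟨_, D_02.u4063_9_9⟩, trivial⟩, trivial⟩

theorem r4071 : RowDead typ nl lane 4071 :=
  rowDead_of_units (dok_oD hg ht) typ_lt lane_lt (tieB_mem Tie.tl4071 (4071, l4071) (List.mem_singleton.2 rfl))
    (nss := [[52], [51], [50], [49], [48], [47], [46], [45], [44], [43], [42], [41], [40], [39], [38], [37], [36], [35], [34], [33], [32], [31], [30], [29], [28], [27], [26], [25], [24], [23], [21, 1], [21], [15, 5], [14, 5], [18], [17], [16], [15], [14], [13], [5, 2, 2, 3], [5, 2, 4], [3, 2, 4, 1], [3, 4, 2], [5, 3], [7], [3, 2, 1], [3, 2], [4], [3], [2], [1]]) (by decide +kernel)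
   ⟨⟨⟨_, D_02.u4071_0_0⟩, trivial⟩,
    ⟨⟨_, D_02.u4071_1_1⟩, trivial⟩,
    ⟨⟨_, D_02.u4071_2_2⟩, trivial⟩,
    ⟨⟨_, D_02.u4071_3_3⟩, trivial⟩,
    ⟨⟨_, D_02.u4071_4_4⟩, trivial⟩,
    ⟨⟨_, D_02.u4071_5_5⟩, trivial⟩,
    ⟨⟨_, D_02.u4071_6_6⟩, trivial⟩,
    ⟨⟨_, D_02.u4071_7_7⟩, trivial⟩,
    ⟨⟨_, D_02.u4071_8_8⟩, trivial⟩,
    ⟨⟨_, D_02.u4071_9_9⟩, trivial⟩,
    ⟨⟨_, D_02.u4071_10_10⟩, trivial⟩,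
    ⟨⟨_, D_02.u4071_11_11⟩, trivial⟩,
    ⟨⟨_, D_02.u4071_12_12⟩, trivial⟩,
    ⟨⟨_, D_02.u4071_13_13⟩, trivial⟩,
    ⟨⟨_, D_02.u4071_14_14⟩, trivial⟩,
    ⟨⟨_, D_02.u4071_15_15⟩, trivial⟩,
    ⟨⟨_, D_02.u4071_16_16⟩, trivial⟩,
    ⟨⟨_, D_02.u4071_17_17⟩, trivial⟩,
    ⟨⟨_, D_02.u4071_18_18⟩, trivial⟩,
    ⟨⟨_, D_02.u4071_19_19⟩, trivial⟩,
    ⟨⟨_, D_02.u4071_20_20⟩, trivial⟩,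
    ⟨⟨_, D_02.u4071_21_21⟩, trivial⟩,
    ⟨⟨_, D_02.u4071_22_22⟩, trivial⟩,
    ⟨⟨_, D_02.u4071_23_23⟩, trivial⟩,
    ⟨⟨_, D_02.u4071_24_24⟩, trivial⟩,
    ⟨⟨_, D_02.u4071_25_25⟩, trivial⟩,
    ⟨⟨_, D_02.u4071_26_26⟩, trivial⟩,
    ⟨⟨_, D_02.u4071_27_27⟩, trivial⟩,
    ⟨⟨_, D_02.u4071_28_28⟩, trivial⟩,
    ⟨⟨_, D_02.u4071_29_29⟩, trivial⟩,
    ⟨⟨_, D_02.u4071_30_30⟩, ⟨_, D_02.u4071_30_51⟩, trivial⟩,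
    ⟨⟨_, D_02.u4071_31_31⟩, trivial⟩,
    ⟨⟨_, D_02.u4071_32_32⟩, ⟨_, D_02.u4071_32_47⟩, trivial⟩,
    ⟨⟨_, D_02.u4071_33_33⟩, ⟨_, D_02.u4071_33_47⟩, trivial⟩,
    ⟨⟨_, D_02.u4071_34_34⟩, trivial⟩,
    ⟨⟨_, D_02.u4071_35_35⟩, trivial⟩,
    ⟨⟨_, D_02.u4071_36_36⟩, trivial⟩,
    ⟨⟨_, D_02.u4071_37_37⟩, trivial⟩,
    ⟨⟨_, D_02.u4071_38_38⟩, trivial⟩,
    ⟨⟨_, D_02.u4071_39_39⟩, trivial⟩,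
    ⟨⟨_, D_02.u4071_40_40⟩, ⟨_, D_02.u4071_40_45⟩, ⟨_, D_02.u4071_40_47⟩, ⟨_, D_02.u4071_40_49⟩, trivial⟩,
    ⟨⟨_, D_02.u4071_41_41⟩, ⟨_, D_02.u4071_41_46⟩, ⟨_, D_02.u4071_41_48⟩, trivial⟩,
    ⟨⟨_, D_02.u4071_42_42⟩, ⟨_, D_02.u4071_42_45⟩, ⟨_, D_02.u4071_42_47⟩, ⟨_, D_02.u4071_42_51⟩, trivial⟩,
    ⟨⟨_, D_02.u4071_43_43⟩, ⟨_, D_02.u4071_43_46⟩, ⟨_, D_02.u4071_43_50⟩, trivial⟩,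
    ⟨⟨_, D_02.u4071_44_44⟩, ⟨_, D_02.u4071_44_49⟩, trivial⟩,
    ⟨⟨_, D_02.u4071_45_45⟩, trivial⟩,
    ⟨⟨_, D_02.u4071_46_46⟩, ⟨_, D_02.u4071_46_49⟩, ⟨_, D_02.u4071_46_51⟩, trivial⟩,
    ⟨⟨_, D_02.u4071_47_47⟩, ⟨_, D_02.u4071_47_50⟩, trivial⟩,
    ⟨⟨_, D_02.u4071_48_48⟩, trivial⟩,
    ⟨⟨_, D_02.u4071_49_49⟩, trivial⟩,
    ⟨⟨_, D_02.u4071_50_50⟩, trivial⟩,
    ⟨⟨_, D_02.u4071_51_51⟩, trivial⟩, trivial⟩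

theorem r4072 : RowDead typ nl lane 4072 :=
  rowDead_of_units (dok_oD hg ht) typ_lt lane_lt (tieB_mem Tie.tl4072 (4072, l4072) (List.mem_singleton.2 rfl))
    (nss := [[14, 5, 3], [12, 5, 4], [11, 1, 4, 1, 3], [11, 5, 3], [18], [17], [16], [15], [14], [13], [12], [11], [10], [9], [8], [7], [6], [5], [4], [3], [2], [1]]) (by decide +kernel)
   ⟨⟨⟨_, D_02.u4072_0_0⟩, ⟨_, D_02.u4072_0_14⟩, ⟨_, D_02.u4072_0_19⟩, trivial⟩,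
    ⟨⟨_, D_02.u4072_1_1⟩, ⟨_, D_02.u4072_1_13⟩, ⟨_, D_02.u4072_1_18⟩, trivial⟩,
    ⟨⟨_, D_02.u4072_2_2⟩, ⟨_, D_02.u4072_2_13⟩, ⟨_, D_02.u4072_2_14⟩, ⟨_, D_02.u4072_2_18⟩, ⟨_, D_02.u4072_2_19⟩, trivial⟩,
    ⟨⟨_, D_02.u4072_3_3⟩, ⟨_, D_02.u4072_3_14⟩, ⟨_, D_02.u4072_3_19⟩, trivial⟩,
    ⟨⟨_, D_02.u4072_4_4⟩, trivial⟩,
    ⟨⟨_, D_02.u4072_5_5⟩, trivial⟩,
    ⟨⟨_, D_02.u4072_6_6⟩, trivial⟩,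
    ⟨⟨_, D_02.u4072_7_7⟩, trivial⟩,
    ⟨⟨_, D_02.u4072_8_8⟩, trivial⟩,
    ⟨⟨_, D_02.u4072_9_9⟩, trivial⟩,
    ⟨⟨_, D_02.u4072_10_10⟩, trivial⟩,
    ⟨⟨_, D_02.u4072_11_11⟩, trivial⟩,
    ⟨⟨_, D_02.u4072_12_12⟩, trivial⟩,
    ⟨⟨_, D_02.u4072_13_13⟩, trivial⟩,
    ⟨⟨_, D_02.u4072_14_14⟩, trivial⟩,
    ⟨⟨_, D_02.u4072_15_15⟩, trivial⟩,
    ⟨⟨_, D_02.u4072_16_16⟩, trivial⟩,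
    ⟨⟨_, D_02.u4072_17_17⟩, trivial⟩,
    ⟨⟨_, D_02.u4072_18_18⟩, trivial⟩,
    ⟨⟨_, D_02.u4072_19_19⟩, trivial⟩,
    ⟨⟨_, D_02.u4072_20_20⟩, trivial⟩,
    ⟨⟨_, D_02.u4072_21_21⟩, trivial⟩, trivial⟩

theorem r4073 : RowDead typ nl lane 4073 :=
  rowDead_of_units (dok_oD hg ht) typ_lt lane_lt (tieB_mem Tie.tl4073 (4073, l4073) (List.mem_singleton.2 rfl))
    (nss := [[31], [30], [29], [28], [27], [26], [25], [24], [23], [22], [21], [20], [19], [18], [17], [16], [15], [14], [13], [12], [11], [10], [9], [8], [7], [6], [5], [4], [3], [2], [1]]) (by decide +kernel)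
   ⟨⟨⟨_, D_02.u4073_0_0⟩, trivial⟩,
    ⟨⟨_, D_02.u4073_1_1⟩, trivial⟩,
    ⟨⟨_, D_02.u4073_2_2⟩, trivial⟩,
    ⟨⟨_, D_02.u4073_3_3⟩, trivial⟩,
    ⟨⟨_, D_02.u4073_4_4⟩, trivial⟩,
    ⟨⟨_, D_02.u4073_5_5⟩, trivial⟩,
    ⟨⟨_, D_02.u4073_6_6⟩, trivial⟩,
    ⟨⟨_, D_02.u4073_7_7⟩, trivial⟩,
    ⟨⟨_, D_02.u4073_8_8⟩, trivial⟩,
    ⟨⟨_, D_02.u4073_9_9⟩, trivial⟩,
    ⟨⟨_, D_02.u4073_10_10⟩, trivial⟩,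
    ⟨⟨_, D_02.u4073_11_11⟩, trivial⟩,
    ⟨⟨_, D_02.u4073_12_12⟩, trivial⟩,
    ⟨⟨_, D_02.u4073_13_13⟩, trivial⟩,
    ⟨⟨_, D_02.u4073_14_14⟩, trivial⟩,
    ⟨⟨_, D_02.u4073_15_15⟩, trivial⟩,
    ⟨⟨_, D_02.u4073_16_16⟩, trivial⟩,
    ⟨⟨_, D_02.u4073_17_17⟩, trivial⟩,
    ⟨⟨_, D_02.u4073_18_18⟩, trivial⟩,
    ⟨⟨_, D_02.u4073_19_19⟩, trivial⟩,
    ⟨⟨_, D_02.u4073_20_20⟩, trivial⟩,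
    ⟨⟨_, D_02.u4073_21_21⟩, trivial⟩,
    ⟨⟨_, D_02.u4073_22_22⟩, trivial⟩,
    ⟨⟨_, D_02.u4073_23_23⟩, trivial⟩,
    ⟨⟨_, D_02.u4073_24_24⟩, trivial⟩,
    ⟨⟨_, D_02.u4073_25_25⟩, trivial⟩,
    ⟨⟨_, D_02.u4073_26_26⟩, trivial⟩,
    ⟨⟨_, D_02.u4073_27_27⟩, trivial⟩,
    ⟨⟨_, D_02.u4073_28_28⟩, trivial⟩,
    ⟨⟨_, D_02.u4073_29_29⟩, trivial⟩,
    ⟨⟨_, D_02.u4073_30_30⟩, trivial⟩, trivial⟩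

theorem r4074 : RowDead typ nl lane 4074 :=
  rowDead_of_units (dok_oD hg ht) typ_lt lane_lt (tieB_mem Tie.tl4074 (4074, l4074) (List.mem_singleton.2 rfl))
    (nss := [[14], [13], [12], [11], [10], [9], [8], [7], [6], [5], [4], [3], [2], [1]]) (by decide +kernel)
   ⟨⟨⟨_, D_02.u4074_0_0⟩, trivial⟩,
    ⟨⟨_, D_02.u4074_1_1⟩, trivial⟩,
    ⟨⟨_, D_02.u4074_2_2⟩, trivial⟩,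
    ⟨⟨_, D_02.u4074_3_3⟩, trivial⟩,
    ⟨⟨_, D_02.u4074_4_4⟩, trivial⟩,
    ⟨⟨_, D_02.u4074_5_5⟩, trivial⟩,
    ⟨⟨_, D_02.u4074_6_6⟩, trivial⟩,
    ⟨⟨_, D_02.u4074_7_7⟩, trivial⟩,
    ⟨⟨_, D_02.u4074_8_8⟩, trivial⟩,
    ⟨⟨_, D_02.u4074_9_9⟩, trivial⟩,
    ⟨⟨_, D_02.u4074_10_10⟩, trivial⟩,
    ⟨⟨_, D_02.u4074_11_11⟩, trivial⟩,
    ⟨⟨_, D_02.u4074_12_12⟩, trivial⟩,
    ⟨⟨_, D_02.u4074_13_13⟩, trivial⟩, trivial⟩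

theorem r4100 : RowDead typ nl lane 4100 :=
  rowDead_of_units (dok_oD hg ht) typ_lt lane_lt (tieB_mem Tie.tl4100 (4100, l4100) (List.mem_singleton.2 rfl))
    (nss := [[14], [11, 2], [5, 7], [11], [10], [9], [8], [7], [6], [5], [4], [3], [2], [1]]) (by decide +kernel)
   ⟨⟨⟨_, D_02.u4100_0_0⟩, trivial⟩,
    ⟨⟨_, D_02.u4100_1_1⟩, ⟨_, D_02.u4100_1_12⟩, trivial⟩,
    ⟨⟨_, D_02.u4100_2_2⟩, ⟨_, D_02.u4100_2_7⟩, trivial⟩,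
    ⟨⟨_, D_02.u4100_3_3⟩, trivial⟩,
    ⟨⟨_, D_02.u4100_4_4⟩, trivial⟩,
    ⟨⟨_, D_02.u4100_5_5⟩, trivial⟩,
    ⟨⟨_, D_02.u4100_6_6⟩, trivial⟩,
    ⟨⟨_, D_02.u4100_7_7⟩, trivial⟩,
    ⟨⟨_, D_02.u4100_8_8⟩, trivial⟩,
    ⟨⟨_, D_02.u4100_9_9⟩, trivial⟩,
    ⟨⟨_, D_02.u4100_10_10⟩, trivial⟩,
    ⟨⟨_, D_02.u4100_11_11⟩, trivial⟩,
    ⟨⟨_, D_02.u4100_12_12⟩, trivial⟩,
    ⟨⟨_, D_02.u4100_13_13⟩, trivial⟩, trivial⟩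

theorem r4123 : RowDead typ nl lane 4123 :=
  rowDead_of_units (dok_oD hg ht) typ_lt lane_lt (tieB_mem Tie.tl4123 (4123, l4123) (List.mem_singleton.2 rfl))
    (nss := [[8], [7], [6], [5], [4], [3], [2], [1]]) (by decide +kernel)
   ⟨⟨⟨_, D_02.u4123_0_0⟩, trivial⟩,
    ⟨⟨_, D_02.u4123_1_1⟩, trivial⟩,
    ⟨⟨_, D_02.u4123_2_2⟩, trivial⟩,
    ⟨⟨_, D_02.u4123_3_3⟩, trivial⟩,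
    ⟨⟨_, D_02.u4123_4_4⟩, trivial⟩,
    ⟨⟨_, D_02.u4123_5_5⟩, trivial⟩,
    ⟨⟨_, D_02.u4123_6_6⟩, trivial⟩,
    ⟨⟨_, D_02.u4123_7_7⟩, trivial⟩, trivial⟩

theorem r4131 : RowDead typ nl lane 4131 :=
  rowDead_of_units (dok_oD hg ht) typ_lt lane_lt (tieB_mem Tie.tl4131 (4131, l4131) (List.mem_singleton.2 rfl))
    (nss := [[3, 1], [2, 1], [2], [1]]) (by decide +kernel)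
   ⟨⟨⟨_, D_02.u4131_0_0⟩, ⟨_, D_02.u4131_0_3⟩, trivial⟩,
    ⟨⟨_, D_02.u4131_1_1⟩, ⟨_, D_02.u4131_1_3⟩, trivial⟩,
    ⟨⟨_, D_02.u4131_2_2⟩, trivial⟩,
    ⟨⟨_, D_02.u4131_3_3⟩, trivial⟩, trivial⟩

theorem r4134 : RowDead typ nl lane 4134 :=
  rowDead_of_units (dok_oD hg ht) typ_lt lane_lt (tieB_mem Tie.tl4134 (4134, l4134) (List.mem_singleton.2 rfl))
    (nss := [[40], [39], [38], [37], [36], [35], [34], [33], [32], [31], [30], [29], [28], [27], [26], [25], [24], [23], [22], [21], [20], [19], [18], [17], [16], [15], [14], [13], [12], [11], [10], [9], [8], [7], [6], [5], [4], [3], [2], [1]]) (by decide +kernel)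
   ⟨⟨⟨_, D_02.u4134_0_0⟩, trivial⟩,
    ⟨⟨_, D_02.u4134_1_1⟩, trivial⟩,
    ⟨⟨_, D_02.u4134_2_2⟩, trivial⟩,
    ⟨⟨_, D_02.u4134_3_3⟩, trivial⟩,
    ⟨⟨_, D_02.u4134_4_4⟩, trivial⟩,
    ⟨⟨_, D_02.u4134_5_5⟩, trivial⟩,
    ⟨⟨_, D_02.u4134_6_6⟩, trivial⟩,
    ⟨⟨_, D_02.u4134_7_7⟩, trivial⟩,
    ⟨⟨_, D_02.u4134_8_8⟩, trivial⟩,
    ⟨⟨_, D_02.u4134_9_9⟩, trivial⟩,
    ⟨⟨_, D_02.u4134_10_10⟩, trivial⟩,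
    ⟨⟨_, D_03.u4134_11_11⟩, trivial⟩,
    ⟨⟨_, D_03.u4134_12_12⟩, trivial⟩,
    ⟨⟨_, D_03.u4134_13_13⟩, trivial⟩,
    ⟨⟨_, D_03.u4134_14_14⟩, trivial⟩,
    ⟨⟨_, D_03.u4134_15_15⟩, trivial⟩,
    ⟨⟨_, D_03.u4134_16_16⟩, trivial⟩,
    ⟨⟨_, D_03.u4134_17_17⟩, trivial⟩,
    ⟨⟨_, D_03.u4134_18_18⟩, trivial⟩,
    ⟨⟨_, D_03.u4134_19_19⟩, trivial⟩,
    ⟨⟨_, D_03.u4134_20_20⟩, trivial⟩,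
    ⟨⟨_, D_03.u4134_21_21⟩, trivial⟩,
    ⟨⟨_, D_03.u4134_22_22⟩, trivial⟩,
    ⟨⟨_, D_03.u4134_23_23⟩, trivial⟩,
    ⟨⟨_, D_03.u4134_24_24⟩, trivial⟩,
    ⟨⟨_, D_03.u4134_25_25⟩, trivial⟩,
    ⟨⟨_, D_03.u4134_26_26⟩, trivial⟩,
    ⟨⟨_, D_03.u4134_27_27⟩, trivial⟩,
    ⟨⟨_, D_03.u4134_28_28⟩, trivial⟩,
    ⟨⟨_, D_03.u4134_29_29⟩, trivial⟩,
    ⟨⟨_, D_03.u4134_30_30⟩, trivial⟩,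
    ⟨⟨_, D_03.u4134_31_31⟩, trivial⟩,
    ⟨⟨_, D_03.u4134_32_32⟩, trivial⟩,
    ⟨⟨_, D_03.u4134_33_33⟩, trivial⟩,
    ⟨⟨_, D_03.u4134_34_34⟩, trivial⟩,
    ⟨⟨_, D_03.u4134_35_35⟩, trivial⟩,
    ⟨⟨_, D_03.u4134_36_36⟩, trivial⟩,
    ⟨⟨_, D_03.u4134_37_37⟩, trivial⟩,
    ⟨⟨_, D_03.u4134_38_38⟩, trivial⟩,
    ⟨⟨_, D_03.u4134_39_39⟩, trivial⟩, trivial⟩

theorem r4135 : RowDead typ nl lane 4135 :=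
  rowDead_of_units (dok_oD hg ht) typ_lt lane_lt (tieB_mem Tie.tl4135 (4135, l4135) (List.mem_singleton.2 rfl))
    (nss := [[20], [19], [18], [17], [16], [15], [14], [13], [12], [11], [10], [9], [8], [7], [6], [5], [4], [3], [2], [1]]) (by decide +kernel)
   ⟨⟨⟨_, D_03.u4135_0_0⟩, trivial⟩,
    ⟨⟨_, D_03.u4135_1_1⟩, trivial⟩,
    ⟨⟨_, D_03.u4135_2_2⟩, trivial⟩,
    ⟨⟨_, D_03.u4135_3_3⟩, trivial⟩,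
    ⟨⟨_, D_03.u4135_4_4⟩, trivial⟩,
    ⟨⟨_, D_03.u4135_5_5⟩, trivial⟩,
    ⟨⟨_, D_03.u4135_6_6⟩, trivial⟩,
    ⟨⟨_, D_03.u4135_7_7⟩, trivial⟩,
    ⟨⟨_, D_03.u4135_8_8⟩, trivial⟩,
    ⟨⟨_, D_03.u4135_9_9⟩, trivial⟩,
    ⟨⟨_, D_03.u4135_10_10⟩, trivial⟩,
    ⟨⟨_, D_03.u4135_11_11⟩, trivial⟩,
    ⟨⟨_, D_03.u4135_12_12⟩, trivial⟩,
    ⟨⟨_, D_03.u4135_13_13⟩, trivial⟩,
    ⟨⟨_, D_03.u4135_14_14⟩, trivial⟩,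
    ⟨⟨_, D_03.u4135_15_15⟩, trivial⟩,
    ⟨⟨_, D_03.u4135_16_16⟩, trivial⟩,
    ⟨⟨_, D_03.u4135_17_17⟩, trivial⟩,
    ⟨⟨_, D_03.u4135_18_18⟩, trivial⟩,
    ⟨⟨_, D_03.u4135_19_19⟩, trivial⟩, trivial⟩

theorem r4136 : RowDead typ nl lane 4136 :=
  rowDead_of_units (dok_oD hg ht) typ_lt lane_lt (tieB_mem Tie.tl4136 (4136, l4136) (List.mem_singleton.2 rfl))
    (nss := [[20], [19], [18], [17], [16], [15], [14], [13], [12], [11], [10], [9], [8], [7], [6], [5], [4], [3], [2], [1]]) (by decide +kernel)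
   ⟨⟨⟨_, D_03.u4136_0_0⟩, trivial⟩,
    ⟨⟨_, D_03.u4136_1_1⟩, trivial⟩,
    ⟨⟨_, D_03.u4136_2_2⟩, trivial⟩,
    ⟨⟨_, D_03.u4136_3_3⟩, trivial⟩,
    ⟨⟨_, D_03.u4136_4_4⟩, trivial⟩,
    ⟨⟨_, D_03.u4136_5_5⟩, trivial⟩,
    ⟨⟨_, D_03.u4136_6_6⟩, trivial⟩,
    ⟨⟨_, D_03.u4136_7_7⟩, trivial⟩,
    ⟨⟨_, D_03.u4136_8_8⟩, trivial⟩,
    ⟨⟨_, D_03.u4136_9_9⟩, trivial⟩,
    ⟨⟨_, D_03.u4136_10_10⟩, trivial⟩,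
    ⟨⟨_, D_03.u4136_11_11⟩, trivial⟩,
    ⟨⟨_, D_03.u4136_12_12⟩, trivial⟩,
    ⟨⟨_, D_03.u4136_13_13⟩, trivial⟩,
    ⟨⟨_, D_03.u4136_14_14⟩, trivial⟩,
    ⟨⟨_, D_03.u4136_15_15⟩, trivial⟩,
    ⟨⟨_, D_03.u4136_16_16⟩, trivial⟩,
    ⟨⟨_, D_03.u4136_17_17⟩, trivial⟩,
    ⟨⟨_, D_03.u4136_18_18⟩, trivial⟩,
    ⟨⟨_, D_03.u4136_19_19⟩, trivial⟩, trivial⟩

theorem r4430 : RowDead typ nl lane 4430 :=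
  rowDead_of_units (dok_oD hg ht) typ_lt lane_lt (tieB_mem Tie.tl4430 (4430, l4430) (List.mem_singleton.2 rfl))
    (nss := [[6], [5], [4], [3], [2], [1]]) (by decide +kernel)
   ⟨⟨⟨_, D_03.u4430_0_0⟩, trivial⟩,
    ⟨⟨_, D_03.u4430_1_1⟩, trivial⟩,
    ⟨⟨_, D_03.u4430_2_2⟩, trivial⟩,
    ⟨⟨_, D_03.u4430_3_3⟩, trivial⟩,
    ⟨⟨_, D_03.u4430_4_4⟩, trivial⟩,
    ⟨⟨_, D_03.u4430_5_5⟩, trivial⟩, trivial⟩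

theorem r4517 : RowDead typ nl lane 4517 :=
  rowDead_of_units (dok_oD hg ht) typ_lt lane_lt (tieB_mem Tie.tl4517 (4517, l4517) (List.mem_singleton.2 rfl))
    (nss := [[3, 1], [2, 1], [2], [1]]) (by decide +kernel)
   ⟨⟨⟨_, D_03.u4517_0_0⟩, ⟨_, D_03.u4517_0_3⟩, trivial⟩,
    ⟨⟨_, D_03.u4517_1_1⟩, ⟨_, D_03.u4517_1_3⟩, trivial⟩,
    ⟨⟨_, D_03.u4517_2_2⟩, trivial⟩,
    ⟨⟨_, D_03.u4517_3_3⟩, trivial⟩, trivial⟩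

theorem r4538 : RowDead typ nl lane 4538 :=
  rowDead_of_units (dok_oD hg ht) typ_lt lane_lt (tieB_mem Tie.tl4538 (4538, l4538) (List.mem_singleton.2 rfl))
    (nss := [[32], [31], [30], [29], [28], [27], [26], [25], [24], [23], [22], [21], [20], [19], [18], [17], [16], [15], [14], [13], [12], [11], [10], [9], [8], [7], [6], [5], [4], [3], [2], [1]]) (by decide +kernel)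
   ⟨⟨⟨_, D_03.u4538_0_0⟩, trivial⟩,
    ⟨⟨_, D_03.u4538_1_1⟩, trivial⟩,
    ⟨⟨_, D_03.u4538_2_2⟩, trivial⟩,
    ⟨⟨_, D_03.u4538_3_3⟩, trivial⟩,
    ⟨⟨_, D_03.u4538_4_4⟩, trivial⟩,
    ⟨⟨_, D_03.u4538_5_5⟩, trivial⟩,
    ⟨⟨_, D_03.u4538_6_6⟩, trivial⟩,
    ⟨⟨_, D_03.u4538_7_7⟩, trivial⟩,
    ⟨⟨_, D_03.u4538_8_8⟩, trivial⟩,
    ⟨⟨_, D_03.u4538_9_9⟩, trivial⟩,
    ⟨⟨_, D_03.u4538_10_10⟩, trivial⟩,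
    ⟨⟨_, D_03.u4538_11_11⟩, trivial⟩,
    ⟨⟨_, D_03.u4538_12_12⟩, trivial⟩,
    ⟨⟨_, D_03.u4538_13_13⟩, trivial⟩,
    ⟨⟨_, D_03.u4538_14_14⟩, trivial⟩,
    ⟨⟨_, D_03.u4538_15_15⟩, trivial⟩,
    ⟨⟨_, D_03.u4538_16_16⟩, trivial⟩,
    ⟨⟨_, D_03.u4538_17_17⟩, trivial⟩,
    ⟨⟨_, D_03.u4538_18_18⟩, trivial⟩,
    ⟨⟨_, D_03.u4538_19_19⟩, trivial⟩,
    ⟨⟨_, D_03.u4538_20_20⟩, trivial⟩,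
    ⟨⟨_, D_03.u4538_21_21⟩, trivial⟩,
    ⟨⟨_, D_03.u4538_22_22⟩, trivial⟩,
    ⟨⟨_, D_03.u4538_23_23⟩, trivial⟩,
    ⟨⟨_, D_03.u4538_24_24⟩, trivial⟩,
    ⟨⟨_, D_03.u4538_25_25⟩, trivial⟩,
    ⟨⟨_, D_03.u4538_26_26⟩, trivial⟩,
    ⟨⟨_, D_03.u4538_27_27⟩, trivial⟩,
    ⟨⟨_, D_03.u4538_28_28⟩, trivial⟩,
    ⟨⟨_, D_03.u4538_29_29⟩, trivial⟩,
    ⟨⟨_, D_03.u4538_30_30⟩, trivial⟩,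
    ⟨⟨_, D_03.u4538_31_31⟩, trivial⟩, trivial⟩

theorem r4539 : RowDead typ nl lane 4539 :=
  rowDead_of_units (dok_oD hg ht) typ_lt lane_lt (tieB_mem Tie.tl4539 (4539, l4539) (List.mem_singleton.2 rfl))
    (nss := [[12], [11], [10], [9], [8], [7], [6], [5], [4], [3], [2], [1]]) (by decide +kernel)
   ⟨⟨⟨_, D_03.u4539_0_0⟩, trivial⟩,
    ⟨⟨_, D_03.u4539_1_1⟩, trivial⟩,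
    ⟨⟨_, D_03.u4539_2_2⟩, trivial⟩,
    ⟨⟨_, D_03.u4539_3_3⟩, trivial⟩,
    ⟨⟨_, D_03.u4539_4_4⟩, trivial⟩,
    ⟨⟨_, D_03.u4539_5_5⟩, trivial⟩,
    ⟨⟨_, D_03.u4539_6_6⟩, trivial⟩,
    ⟨⟨_, D_03.u4539_7_7⟩, trivial⟩,
    ⟨⟨_, D_03.u4539_8_8⟩, trivial⟩,
    ⟨⟨_, D_03.u4539_9_9⟩, trivial⟩,
    ⟨⟨_, D_03.u4539_10_10⟩, trivial⟩,
    ⟨⟨_, D_03.u4539_11_11⟩, trivial⟩, trivial⟩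

theorem r4540 : RowDead typ nl lane 4540 :=
  rowDead_of_units (dok_oD hg ht) typ_lt lane_lt (tieB_mem Tie.tl4540 (4540, l4540) (List.mem_singleton.2 rfl))
    (nss := [[20], [19], [18], [17], [16], [15], [14], [13], [12], [11], [10], [9], [8], [7], [6], [5], [4], [3], [2], [1]]) (by decide +kernel)
   ⟨⟨⟨_, D_03.u4540_0_0⟩, trivial⟩,
    ⟨⟨_, D_03.u4540_1_1⟩, trivial⟩,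
    ⟨⟨_, D_03.u4540_2_2⟩, trivial⟩,
    ⟨⟨_, D_03.u4540_3_3⟩, trivial⟩,
    ⟨⟨_, D_03.u4540_4_4⟩, trivial⟩,
    ⟨⟨_, D_03.u4540_5_5⟩, trivial⟩,
    ⟨⟨_, D_03.u4540_6_6⟩, trivial⟩,
    ⟨⟨_, D_03.u4540_7_7⟩, trivial⟩,
    ⟨⟨_, D_03.u4540_8_8⟩, trivial⟩,
    ⟨⟨_, D_03.u4540_9_9⟩, trivial⟩,
    ⟨⟨_, D_03.u4540_10_10⟩, trivial⟩,
    ⟨⟨_, D_03.u4540_11_11⟩, trivial⟩,
    ⟨⟨_, D_03.u4540_12_12⟩, trivial⟩,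
    ⟨⟨_, D_03.u4540_13_13⟩, trivial⟩,
    ⟨⟨_, D_03.u4540_14_14⟩, trivial⟩,
    ⟨⟨_, D_03.u4540_15_15⟩, trivial⟩,
    ⟨⟨_, D_03.u4540_16_16⟩, trivial⟩,
    ⟨⟨_, D_03.u4540_17_17⟩, trivial⟩,
    ⟨⟨_, D_03.u4540_18_18⟩, trivial⟩,
    ⟨⟨_, D_03.u4540_19_19⟩, trivial⟩, trivial⟩

theorem r4545 : RowDead typ nl lane 4545 :=
  rowDead_of_units (dok_oD hg ht) typ_lt lane_lt (tieB_mem Tie.tl4545 (4545, l4545) (List.mem_singleton.2 rfl))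
    (nss := [[11], [10], [9], [8], [7], [6], [5], [4], [3], [2], [1]]) (by decide +kernel)
   ⟨⟨⟨_, D_03.u4545_0_0⟩, trivial⟩,
    ⟨⟨_, D_03.u4545_1_1⟩, trivial⟩,
    ⟨⟨_, D_03.u4545_2_2⟩, trivial⟩,
    ⟨⟨_, D_03.u4545_3_3⟩, trivial⟩,
    ⟨⟨_, D_03.u4545_4_4⟩, trivial⟩,
    ⟨⟨_, D_03.u4545_5_5⟩, trivial⟩,
    ⟨⟨_, D_03.u4545_6_6⟩, trivial⟩,
    ⟨⟨_, D_03.u4545_7_7⟩, trivial⟩,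
    ⟨⟨_, D_03.u4545_8_8⟩, trivial⟩,
    ⟨⟨_, D_03.u4545_9_9⟩, trivial⟩,
    ⟨⟨_, D_03.u4545_10_10⟩, trivial⟩, trivial⟩

theorem r4564 : RowDead typ nl lane 4564 :=
  rowDead_of_units (dok_oD hg ht) typ_lt lane_lt (tieB_mem Tie.tl4564 (4564, l4564) (List.mem_singleton.2 rfl))
    (nss := [[2, 1], [1, 1], [1]]) (by decide +kernel)
   ⟨⟨⟨_, D_03.u4564_0_0⟩, ⟨_, D_03.u4564_0_2⟩, trivial⟩,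
    ⟨⟨_, D_03.u4564_1_1⟩, ⟨_, D_03.u4564_1_2⟩, trivial⟩,
    ⟨⟨_, D_03.u4564_2_2⟩, trivial⟩, trivial⟩

theorem r4566 : RowDead typ nl lane 4566 :=
  rowDead_of_units (dok_oD hg ht) typ_lt lane_lt (tieB_mem Tie.tl4566 (4566, l4566) (List.mem_singleton.2 rfl))
    (nss := [[5, 1, 1, 4, 2, 1, 1, 1], [4, 1, 1, 1, 2, 1, 1, 1, 1, 1, 1], [2, 1, 1, 1, 2, 1, 1, 1, 3, 1], [2, 1, 1, 1, 1, 1, 1, 3, 1, 1], [5, 2, 2, 1, 1, 1], [4, 3, 1, 1, 1, 1], [3, 1, 1, 1, 1, 2, 1], [1, 1, 1, 1, 2, 3], [3, 3, 1, 1], [2, 3, 1, 1], [2, 1, 3], [2, 1, 2], [3, 1], [2, 1], [2], [1]]) (by decide +kernel)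
   ⟨⟨⟨_, D_03.u4566_0_0⟩, ⟨_, D_03.u4566_0_5⟩, ⟨_, D_03.u4566_0_6⟩, ⟨_, D_03.u4566_0_7⟩, ⟨_, D_03.u4566_0_11⟩, ⟨_, D_03.u4566_0_13⟩, ⟨_, D_03.u4566_0_14⟩, ⟨_, D_03.u4566_0_15⟩, trivial⟩,
    ⟨⟨_, D_03.u4566_1_1⟩, ⟨_, D_03.u4566_1_5⟩, ⟨_, D_03.u4566_1_6⟩, ⟨_, D_03.u4566_1_7⟩, ⟨_, D_03.u4566_1_8⟩, ⟨_, D_03.u4566_1_10⟩, ⟨_, D_03.u4566_1_11⟩, ⟨_, D_03.u4566_1_12⟩, ⟨_, D_03.u4566_1_13⟩, ⟨_, D_03.u4566_1_14⟩, ⟨_, D_03.u4566_1_15⟩, trivial⟩,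
    ⟨⟨_, D_03.u4566_2_2⟩, ⟨_, D_03.u4566_2_4⟩, ⟨_, D_03.u4566_2_5⟩, ⟨_, D_03.u4566_2_6⟩, ⟨_, D_03.u4566_2_7⟩, ⟨_, D_03.u4566_2_9⟩, ⟨_, D_03.u4566_2_10⟩, ⟨_, D_03.u4566_2_11⟩, ⟨_, D_03.u4566_2_12⟩, ⟨_, D_03.u4566_2_15⟩, trivial⟩,
    ⟨⟨_, D_03.u4566_3_3⟩, ⟨_, D_03.u4566_3_5⟩, ⟨_, D_03.u4566_3_6⟩, ⟨_, D_03.u4566_3_7⟩, ⟨_, D_03.u4566_3_8⟩, ⟨_, D_03.u4566_3_9⟩, ⟨_, D_03.u4566_3_10⟩, ⟨_, D_03.u4566_3_11⟩, ⟨_, D_03.u4566_3_14⟩, ⟨_, D_03.u4566_3_15⟩, trivial⟩,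
    ⟨⟨_, D_03.u4566_4_4⟩, ⟨_, D_03.u4566_4_9⟩, ⟨_, D_03.u4566_4_11⟩, ⟨_, D_03.u4566_4_13⟩, ⟨_, D_03.u4566_4_14⟩, ⟨_, D_03.u4566_4_15⟩, trivial⟩,
    ⟨⟨_, D_03.u4566_5_5⟩, ⟨_, D_03.u4566_5_9⟩, ⟨_, D_03.u4566_5_12⟩, ⟨_, D_03.u4566_5_13⟩, ⟨_, D_03.u4566_5_14⟩, ⟨_, D_03.u4566_5_15⟩, trivial⟩,
    ⟨⟨_, D_03.u4566_6_6⟩, ⟨_, D_03.u4566_6_9⟩, ⟨_, D_03.u4566_6_10⟩, ⟨_, D_03.u4566_6_11⟩, ⟨_, D_03.u4566_6_12⟩, ⟨_, D_03.u4566_6_13⟩, ⟨_, D_03.u4566_6_15⟩, trivial⟩,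
    ⟨⟨_, D_03.u4566_7_7⟩, ⟨_, D_03.u4566_7_8⟩, ⟨_, D_03.u4566_7_9⟩, ⟨_, D_03.u4566_7_10⟩, ⟨_, D_03.u4566_7_11⟩, ⟨_, D_03.u4566_7_13⟩, trivial⟩,
    ⟨⟨_, D_03.u4566_8_8⟩, ⟨_, D_03.u4566_8_11⟩, ⟨_, D_03.u4566_8_14⟩, ⟨_, D_03.u4566_8_15⟩, trivial⟩,
    ⟨⟨_, D_03.u4566_9_9⟩, ⟨_, D_03.u4566_9_11⟩, ⟨_, D_03.u4566_9_14⟩, ⟨_, D_03.u4566_9_15⟩, trivial⟩,
    ⟨⟨_, D_03.u4566_10_10⟩, ⟨_, D_03.u4566_10_12⟩, ⟨_, D_03.u4566_10_13⟩, trivial⟩,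
    ⟨⟨_, D_03.u4566_11_11⟩, ⟨_, D_03.u4566_11_13⟩, ⟨_, D_03.u4566_11_14⟩, trivial⟩,
    ⟨⟨_, D_03.u4566_12_12⟩, ⟨_, D_03.u4566_12_15⟩, trivial⟩,
    ⟨⟨_, D_03.u4566_13_13⟩, ⟨_, D_03.u4566_13_15⟩, trivial⟩,
    ⟨⟨_, D_03.u4566_14_14⟩, trivial⟩,
    ⟨⟨_, D_03.u4566_15_15⟩, trivial⟩, trivial⟩

theorem r4569 : RowDead typ nl lane 4569 :=
  rowDead_of_units (dok_oD hg ht) typ_lt lane_lt (tieB_mem Tie.tl4569 (4569, l4569) (List.mem_singleton.2 rfl))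
    (nss := [[13], [12], [11], [10], [9], [8], [7], [6], [5], [4], [3], [2], [1]]) (by decide +kernel)
   ⟨⟨⟨_, D_03.u4569_0_0⟩, trivial⟩,
    ⟨⟨_, D_03.u4569_1_1⟩, trivial⟩,
    ⟨⟨_, D_03.u4569_2_2⟩, trivial⟩,
    ⟨⟨_, D_03.u4569_3_3⟩, trivial⟩,
    ⟨⟨_, D_03.u4569_4_4⟩, trivial⟩,
    ⟨⟨_, D_03.u4569_5_5⟩, trivial⟩,
    ⟨⟨_, D_03.u4569_6_6⟩, trivial⟩,
    ⟨⟨_, D_03.u4569_7_7⟩, trivial⟩,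
    ⟨⟨_, D_03.u4569_8_8⟩, trivial⟩,
    ⟨⟨_, D_03.u4569_9_9⟩, trivial⟩,
    ⟨⟨_, D_03.u4569_10_10⟩, trivial⟩,
    ⟨⟨_, D_03.u4569_11_11⟩, trivial⟩,
    ⟨⟨_, D_03.u4569_12_12⟩, trivial⟩, trivial⟩

theorem r4697 : RowDead typ nl lane 4697 :=
  rowDead_of_units (dok_oD hg ht) typ_lt lane_lt (tieB_mem Tie.tl4697 (4697, l4697) (List.mem_singleton.2 rfl))
    (nss := [[9], [8], [7], [6], [5], [4], [3], [2], [1]]) (by decide +kernel)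
   ⟨⟨⟨_, D_03.u4697_0_0⟩, trivial⟩,
    ⟨⟨_, D_03.u4697_1_1⟩, trivial⟩,
    ⟨⟨_, D_03.u4697_2_2⟩, trivial⟩,
    ⟨⟨_, D_03.u4697_3_3⟩, trivial⟩,
    ⟨⟨_, D_03.u4697_4_4⟩, trivial⟩,
    ⟨⟨_, D_03.u4697_5_5⟩, trivial⟩,
    ⟨⟨_, D_03.u4697_6_6⟩, trivial⟩,
    ⟨⟨_, D_03.u4697_7_7⟩, trivial⟩,
    ⟨⟨_, D_03.u4697_8_8⟩, trivial⟩, trivial⟩

theorem r4813 : RowDead typ nl lane 4813 :=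
  rowDead_of_units (dok_oD hg ht) typ_lt lane_lt (tieB_mem Tie.tl4813 (4813, l4813) (List.mem_singleton.2 rfl))
    (nss := [[3, 1], [1, 1, 1], [2], [1]]) (by decide +kernel)
   ⟨⟨⟨_, D_03.u4813_0_0⟩, ⟨_, D_03.u4813_0_3⟩, trivial⟩,
    ⟨⟨_, D_03.u4813_1_1⟩, ⟨_, D_03.u4813_1_2⟩, ⟨_, D_03.u4813_1_3⟩, trivial⟩,
    ⟨⟨_, D_03.u4813_2_2⟩, trivial⟩,
    ⟨⟨_, D_03.u4813_3_3⟩, trivial⟩, trivial⟩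

theorem r4825 : RowDead typ nl lane 4825 :=
  rowDead_of_units (dok_oD hg ht) typ_lt lane_lt (tieB_mem Tie.tl4825 (4825, l4825) (List.mem_singleton.2 rfl))
    (nss := [[5, 1, 1, 1], [3, 1, 1, 1, 1], [2, 1, 1, 1, 1], [1, 1, 1, 1, 1], [4], [3], [2], [1]]) (by decide +kernel)
   ⟨⟨⟨_, D_03.u4825_0_0⟩, ⟨_, D_03.u4825_0_5⟩, ⟨_, D_03.u4825_0_6⟩, ⟨_, D_03.u4825_0_7⟩, trivial⟩,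
    ⟨⟨_, D_03.u4825_1_1⟩, ⟨_, D_03.u4825_1_4⟩, ⟨_, D_03.u4825_1_5⟩, ⟨_, D_03.u4825_1_6⟩, ⟨_, D_03.u4825_1_7⟩, trivial⟩,
    ⟨⟨_, D_03.u4825_2_2⟩, ⟨_, D_03.u4825_2_4⟩, ⟨_, D_03.u4825_2_5⟩, ⟨_, D_03.u4825_2_6⟩, ⟨_, D_03.u4825_2_7⟩, trivial⟩,
    ⟨⟨_, D_03.u4825_3_3⟩, ⟨_, D_03.u4825_3_4⟩, ⟨_, D_03.u4825_3_5⟩, ⟨_, D_03.u4825_3_6⟩, ⟨_, D_03.u4825_3_7⟩, trivial⟩,
    ⟨⟨_, D_03.u4825_4_4⟩, trivial⟩,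
    ⟨⟨_, D_03.u4825_5_5⟩, trivial⟩,
    ⟨⟨_, D_03.u4825_6_6⟩, trivial⟩,
    ⟨⟨_, D_03.u4825_7_7⟩, trivial⟩, trivial⟩

theorem r4852 : RowDead typ nl lane 4852 :=
  rowDead_of_units (dok_oD hg ht) typ_lt lane_lt (tieB_mem Tie.tl4852 (4852, l4852) (List.mem_singleton.2 rfl))
    (nss := [[1, 1], [1]]) (by decide +kernel)
   ⟨⟨⟨_, D_03.u4852_0_0⟩, ⟨_, D_03.u4852_0_1⟩, trivial⟩,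
    ⟨⟨_, D_03.u4852_1_1⟩, trivial⟩, trivial⟩

theorem r4908 : RowDead typ nl lane 4908 :=
  rowDead_of_units (dok_oD hg ht) typ_lt lane_lt (tieB_mem Tie.tl4908 (4908, l4908) (List.mem_singleton.2 rfl))
    (nss := [[11], [10], [9], [8], [7], [6], [5], [4], [3], [2], [1]]) (by decide +kernel)
   ⟨⟨⟨_, D_03.u4908_0_0⟩, trivial⟩,
    ⟨⟨_, D_03.u4908_1_1⟩, trivial⟩,
    ⟨⟨_, D_03.u4908_2_2⟩, trivial⟩,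
    ⟨⟨_, D_03.u4908_3_3⟩, trivial⟩,
    ⟨⟨_, D_03.u4908_4_4⟩, trivial⟩,
    ⟨⟨_, D_03.u4908_5_5⟩, trivial⟩,
    ⟨⟨_, D_03.u4908_6_6⟩, trivial⟩,
    ⟨⟨_, D_03.u4908_7_7⟩, trivial⟩,
    ⟨⟨_, D_03.u4908_8_8⟩, trivial⟩,
    ⟨⟨_, D_03.u4908_9_9⟩, trivial⟩,
    ⟨⟨_, D_03.u4908_10_10⟩, trivial⟩, trivial⟩

theorem r4911 : RowDead typ nl lane 4911 :=
  rowDead_of_units (dok_oD hg ht) typ_lt lane_lt (tieB_mem Tie.tl4911 (4911, l4911) (List.mem_singleton.2 rfl))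
    (nss := [[10], [9], [8], [7], [6], [5], [4], [3], [2], [1]]) (by decide +kernel)
   ⟨⟨⟨_, D_03.u4911_0_0⟩, trivial⟩,
    ⟨⟨_, D_03.u4911_1_1⟩, trivial⟩,
    ⟨⟨_, D_03.u4911_2_2⟩, trivial⟩,
    ⟨⟨_, D_03.u4911_3_3⟩, trivial⟩,
    ⟨⟨_, D_03.u4911_4_4⟩, trivial⟩,
    ⟨⟨_, D_03.u4911_5_5⟩, trivial⟩,
    ⟨⟨_, D_03.u4911_6_6⟩, trivial⟩,
    ⟨⟨_, D_03.u4911_7_7⟩, trivial⟩,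
    ⟨⟨_, D_03.u4911_8_8⟩, trivial⟩,
    ⟨⟨_, D_03.u4911_9_9⟩, trivial⟩, trivial⟩

theorem r4941 : RowDead typ nl lane 4941 :=
  rowDead_of_units (dok_oD hg ht) typ_lt lane_lt (tieB_mem Tie.tl4941 (4941, l4941) (List.mem_singleton.2 rfl))
    (nss := [[50], [49], [48], [47], [46], [45], [44], [43], [42], [41], [40], [39], [38], [37], [36], [35], [34], [33], [32], [31], [30], [29], [28], [27], [26], [25], [24], [23], [22], [21], [20], [19], [18], [17], [16], [15], [14], [13], [12], [11], [10], [9], [8], [7], [6], [5], [4], [3], [2], [1]]) (by decide +kernel)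
   ⟨⟨⟨_, D_03.u4941_0_0⟩, trivial⟩,
    ⟨⟨_, D_03.u4941_1_1⟩, trivial⟩,
    ⟨⟨_, D_03.u4941_2_2⟩, trivial⟩,
    ⟨⟨_, D_03.u4941_3_3⟩, trivial⟩,
    ⟨⟨_, D_04.u4941_4_4⟩, trivial⟩,
    ⟨⟨_, D_04.u4941_5_5⟩, trivial⟩,
    ⟨⟨_, D_04.u4941_6_6⟩, trivial⟩,
    ⟨⟨_, D_04.u4941_7_7⟩, trivial⟩,
    ⟨⟨_, D_04.u4941_8_8⟩, trivial⟩,
    ⟨⟨_, D_04.u4941_9_9⟩, trivial⟩,
    ⟨⟨_, D_04.u4941_10_10⟩, trivial⟩,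
    ⟨⟨_, D_04.u4941_11_11⟩, trivial⟩,
    ⟨⟨_, D_04.u4941_12_12⟩, trivial⟩,
    ⟨⟨_, D_04.u4941_13_13⟩, trivial⟩,
    ⟨⟨_, D_04.u4941_14_14⟩, trivial⟩,
    ⟨⟨_, D_04.u4941_15_15⟩, trivial⟩,
    ⟨⟨_, D_04.u4941_16_16⟩, trivial⟩,
    ⟨⟨_, D_04.u4941_17_17⟩, trivial⟩,
    ⟨⟨_, D_04.u4941_18_18⟩, trivial⟩,
    ⟨⟨_, D_04.u4941_19_19⟩, trivial⟩,
    ⟨⟨_, D_04.u4941_20_20⟩, trivial⟩,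
    ⟨⟨_, D_04.u4941_21_21⟩, trivial⟩,
    ⟨⟨_, D_04.u4941_22_22⟩, trivial⟩,
    ⟨⟨_, D_04.u4941_23_23⟩, trivial⟩,
    ⟨⟨_, D_04.u4941_24_24⟩, trivial⟩,
    ⟨⟨_, D_04.u4941_25_25⟩, trivial⟩,
    ⟨⟨_, D_04.u4941_26_26⟩, trivial⟩,
    ⟨⟨_, D_04.u4941_27_27⟩, trivial⟩,
    ⟨⟨_, D_04.u4941_28_28⟩, trivial⟩,
    ⟨⟨_, D_04.u4941_29_29⟩, trivial⟩,
    ⟨⟨_, D_04.u4941_30_30⟩, trivial⟩,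
    ⟨⟨_, D_04.u4941_31_31⟩, trivial⟩,
    ⟨⟨_, D_04.u4941_32_32⟩, trivial⟩,
    ⟨⟨_, D_04.u4941_33_33⟩, trivial⟩,
    ⟨⟨_, D_04.u4941_34_34⟩, trivial⟩,
    ⟨⟨_, D_04.u4941_35_35⟩, trivial⟩,
    ⟨⟨_, D_04.u4941_36_36⟩, trivial⟩,
    ⟨⟨_, D_04.u4941_37_37⟩, trivial⟩,
    ⟨⟨_, D_04.u4941_38_38⟩, trivial⟩,
    ⟨⟨_, D_04.u4941_39_39⟩, trivial⟩,
    ⟨⟨_, D_04.u4941_40_40⟩, trivial⟩,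
    ⟨⟨_, D_04.u4941_41_41⟩, trivial⟩,
    ⟨⟨_, D_04.u4941_42_42⟩, trivial⟩,
    ⟨⟨_, D_04.u4941_43_43⟩, trivial⟩,
    ⟨⟨_, D_04.u4941_44_44⟩, trivial⟩,
    ⟨⟨_, D_04.u4941_45_45⟩, trivial⟩,
    ⟨⟨_, D_04.u4941_46_46⟩, trivial⟩,
    ⟨⟨_, D_04.u4941_47_47⟩, trivial⟩,
    ⟨⟨_, D_04.u4941_48_48⟩, trivial⟩,
    ⟨⟨_, D_04.u4941_49_49⟩, trivial⟩, trivial⟩

theorem r4961 : RowDead typ nl lane 4961 :=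
  rowDead_of_units (dok_oD hg ht) typ_lt lane_lt (tieB_mem Tie.tl4961 (4961, l4961) (List.mem_singleton.2 rfl))
    (nss := [[6], [5], [4], [3], [2], [1]]) (by decide +kernel)
   ⟨⟨⟨_, D_04.u4961_0_0⟩, trivial⟩,
    ⟨⟨_, D_04.u4961_1_1⟩, trivial⟩,
    ⟨⟨_, D_04.u4961_2_2⟩, trivial⟩,
    ⟨⟨_, D_04.u4961_3_3⟩, trivial⟩,
    ⟨⟨_, D_04.u4961_4_4⟩, trivial⟩,
    ⟨⟨_, D_04.u4961_5_5⟩, trivial⟩, trivial⟩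

theorem r4966 : RowDead typ nl lane 4966 :=
  rowDead_of_units (dok_oD hg ht) typ_lt lane_lt (tieB_mem Tie.tl4966 (4966, l4966) (List.mem_singleton.2 rfl))
    (nss := [[19, 2], [20], [10, 9], [18], [17], [16], [15], [14], [13], [12], [11], [10], [9], [8], [7], [6], [5], [4], [3], [2], [1]]) (by decide +kernel)
   ⟨⟨⟨_, D_04.u4966_0_0⟩, ⟨_, D_04.u4966_0_19⟩, trivial⟩,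
    ⟨⟨_, D_04.u4966_1_1⟩, trivial⟩,
    ⟨⟨_, D_04.u4966_2_2⟩, ⟨_, D_04.u4966_2_12⟩, trivial⟩,
    ⟨⟨_, D_04.u4966_3_3⟩, trivial⟩,
    ⟨⟨_, D_04.u4966_4_4⟩, trivial⟩,
    ⟨⟨_, D_04.u4966_5_5⟩, trivial⟩,
    ⟨⟨_, D_04.u4966_6_6⟩, trivial⟩,
    ⟨⟨_, D_04.u4966_7_7⟩, trivial⟩,
    ⟨⟨_, D_04.u4966_8_8⟩, trivial⟩,
    ⟨⟨_, D_04.u4966_9_9⟩, trivial⟩,
    ⟨⟨_, D_04.u4966_10_10⟩, trivial⟩,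
    ⟨⟨_, D_04.u4966_11_11⟩, trivial⟩,
    ⟨⟨_, D_04.u4966_12_12⟩, trivial⟩,
    ⟨⟨_, D_04.u4966_13_13⟩, trivial⟩,
    ⟨⟨_, D_04.u4966_14_14⟩, trivial⟩,
    ⟨⟨_, D_04.u4966_15_15⟩, trivial⟩,
    ⟨⟨_, D_04.u4966_16_16⟩, trivial⟩,
    ⟨⟨_, D_04.u4966_17_17⟩, trivial⟩,
    ⟨⟨_, D_04.u4966_18_18⟩, trivial⟩,
    ⟨⟨_, D_04.u4966_19_19⟩, trivial⟩,
    ⟨⟨_, D_04.u4966_20_20⟩, trivial⟩, trivial⟩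

theorem r4967 : RowDead typ nl lane 4967 :=
  rowDead_of_units (dok_oD hg ht) typ_lt lane_lt (tieB_mem Tie.tl4967 (4967, l4967) (List.mem_singleton.2 rfl))
    (nss := [[18], [17], [16], [7, 8], [14], [13], [5, 7], [11], [10], [9], [8], [7], [6], [5], [4], [3], [2], [1]]) (by decide +kernel)
   ⟨⟨⟨_, D_04.u4967_0_0⟩, trivial⟩,
    ⟨⟨_, D_04.u4967_1_1⟩, trivial⟩,
    ⟨⟨_, D_04.u4967_2_2⟩, trivial⟩,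
    ⟨⟨_, D_04.u4967_3_3⟩, ⟨_, D_04.u4967_3_10⟩, trivial⟩,
    ⟨⟨_, D_04.u4967_4_4⟩, trivial⟩,
    ⟨⟨_, D_04.u4967_5_5⟩, trivial⟩,
    ⟨⟨_, D_04.u4967_6_6⟩, ⟨_, D_04.u4967_6_11⟩, trivial⟩,
    ⟨⟨_, D_04.u4967_7_7⟩, trivial⟩,
    ⟨⟨_, D_04.u4967_8_8⟩, trivial⟩,
    ⟨⟨_, D_04.u4967_9_9⟩, trivial⟩,
    ⟨⟨_, D_04.u4967_10_10⟩, trivial⟩,
    ⟨⟨_, D_04.u4967_11_11⟩, trivial⟩,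
    ⟨⟨_, D_04.u4967_12_12⟩, trivial⟩,
    ⟨⟨_, D_04.u4967_13_13⟩, trivial⟩,
    ⟨⟨_, D_04.u4967_14_14⟩, trivial⟩,
    ⟨⟨_, D_04.u4967_15_15⟩, trivial⟩,
    ⟨⟨_, D_04.u4967_16_16⟩, trivial⟩,
    ⟨⟨_, D_04.u4967_17_17⟩, trivial⟩, trivial⟩

theorem r4968 : RowDead typ nl lane 4968 :=
  rowDead_of_units (dok_oD hg ht) typ_lt lane_lt (tieB_mem Tie.tl4968 (4968, l4968) (List.mem_singleton.2 rfl))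
    (nss := [[38], [37], [36], [35], [34], [33], [13, 11, 8], [31], [30], [29], [28], [27], [26], [25], [24], [23], [22], [21], [20], [19], [18], [17], [16], [15], [14], [13], [12], [11], [10], [9], [8], [7], [6], [5], [3, 1], [3], [2], [1]]) (by decide +kernel)
   ⟨⟨⟨_, D_04.u4968_0_0⟩, trivial⟩,
    ⟨⟨_, D_04.u4968_1_1⟩, trivial⟩,
    ⟨⟨_, D_04.u4968_2_2⟩, trivial⟩,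
    ⟨⟨_, D_04.u4968_3_3⟩, trivial⟩,
    ⟨⟨_, D_04.u4968_4_4⟩, trivial⟩,
    ⟨⟨_, D_04.u4968_5_5⟩, trivial⟩,
    ⟨⟨_, D_04.u4968_6_6⟩, ⟨_, D_04.u4968_6_19⟩, ⟨_, D_04.u4968_6_30⟩, trivial⟩,
    ⟨⟨_, D_04.u4968_7_7⟩, trivial⟩,
    ⟨⟨_, D_04.u4968_8_8⟩, trivial⟩,
    ⟨⟨_, D_04.u4968_9_9⟩, trivial⟩,
    ⟨⟨_, D_04.u4968_10_10⟩, trivial⟩,
    ⟨⟨_, D_04.u4968_11_11⟩, trivial⟩,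
    ⟨⟨_, D_04.u4968_12_12⟩, trivial⟩,
    ⟨⟨_, D_04.u4968_13_13⟩, trivial⟩,
    ⟨⟨_, D_04.u4968_14_14⟩, trivial⟩,
    ⟨⟨_, D_04.u4968_15_15⟩, trivial⟩,
    ⟨⟨_, D_04.u4968_16_16⟩, trivial⟩,
    ⟨⟨_, D_04.u4968_17_17⟩, trivial⟩,
    ⟨⟨_, D_04.u4968_18_18⟩, trivial⟩,
    ⟨⟨_, D_04.u4968_19_19⟩, trivial⟩,
    ⟨⟨_, D_04.u4968_20_20⟩, trivial⟩,
    ⟨⟨_, D_04.u4968_21_21⟩, trivial⟩,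
    ⟨⟨_, D_04.u4968_22_22⟩, trivial⟩,
    ⟨⟨_, D_04.u4968_23_23⟩, trivial⟩,
    ⟨⟨_, D_04.u4968_24_24⟩, trivial⟩,
    ⟨⟨_, D_04.u4968_25_25⟩, trivial⟩,
    ⟨⟨_, D_04.u4968_26_26⟩, trivial⟩,
    ⟨⟨_, D_04.u4968_27_27⟩, trivial⟩,
    ⟨⟨_, D_04.u4968_28_28⟩, trivial⟩,
    ⟨⟨_, D_04.u4968_29_29⟩, trivial⟩,
    ⟨⟨_, D_04.u4968_30_30⟩, trivial⟩,
    ⟨⟨_, D_04.u4968_31_31⟩, trivial⟩,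
    ⟨⟨_, D_04.u4968_32_32⟩, trivial⟩,
    ⟨⟨_, D_04.u4968_33_33⟩, trivial⟩,
    ⟨⟨_, D_04.u4968_34_34⟩, ⟨_, D_04.u4968_34_37⟩, trivial⟩,
    ⟨⟨_, D_04.u4968_35_35⟩, trivial⟩,
    ⟨⟨_, D_04.u4968_36_36⟩, trivial⟩,
    ⟨⟨_, D_04.u4968_37_37⟩, trivial⟩, trivial⟩

theorem r4988 : RowDead typ nl lane 4988 :=
  rowDead_of_units (dok_oD hg ht) typ_lt lane_lt (tieB_mem Tie.tl4988 (4988, l4988) (List.mem_singleton.2 rfl))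
    (nss := [[20], [19], [13, 5], [17], [16], [15], [14], [13], [12], [11], [10], [9], [8], [7], [6], [5], [4], [3], [2], [1]]) (by decide +kernel)
   ⟨⟨⟨_, D_04.u4988_0_0⟩, trivial⟩,
    ⟨⟨_, D_04.u4988_1_1⟩, trivial⟩,
    ⟨⟨_, D_04.u4988_2_2⟩, ⟨_, D_04.u4988_2_15⟩, trivial⟩,
    ⟨⟨_, D_04.u4988_3_3⟩, trivial⟩,
    ⟨⟨_, D_04.u4988_4_4⟩, trivial⟩,
    ⟨⟨_, D_04.u4988_5_5⟩, trivial⟩,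
    ⟨⟨_, D_04.u4988_6_6⟩, trivial⟩,
    ⟨⟨_, D_04.u4988_7_7⟩, trivial⟩,
    ⟨⟨_, D_04.u4988_8_8⟩, trivial⟩,
    ⟨⟨_, D_04.u4988_9_9⟩, trivial⟩,
    ⟨⟨_, D_04.u4988_10_10⟩, trivial⟩,
    ⟨⟨_, D_04.u4988_11_11⟩, trivial⟩,
    ⟨⟨_, D_04.u4988_12_12⟩, trivial⟩,
    ⟨⟨_, D_04.u4988_13_13⟩, trivial⟩,
    ⟨⟨_, D_04.u4988_14_14⟩, trivial⟩,
    ⟨⟨_, D_04.u4988_15_15⟩, trivial⟩,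
    ⟨⟨_, D_04.u4988_16_16⟩, trivial⟩,
    ⟨⟨_, D_04.u4988_17_17⟩, trivial⟩,
    ⟨⟨_, D_04.u4988_18_18⟩, trivial⟩,
    ⟨⟨_, D_04.u4988_19_19⟩, trivial⟩, trivial⟩

theorem r4989 : RowDead typ nl lane 4989 :=
  rowDead_of_units (dok_oD hg ht) typ_lt lane_lt (tieB_mem Tie.tl4989 (4989, l4989) (List.mem_singleton.2 rfl))
    (nss := [[49], [48], [47], [46], [45], [44], [43], [42], [41], [40], [39], [38], [37], [36], [35], [34], [33], [32], [31], [30], [29], [28], [27], [26], [25], [24], [23], [22], [21], [20], [19], [18], [17], [16], [15], [14], [13], [12], [11], [10], [9], [8], [7], [6], [5], [4], [3], [2], [1]]) (by decide +kernel)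
   ⟨⟨⟨_, D_04.u4989_0_0⟩, trivial⟩,
    ⟨⟨_, D_04.u4989_1_1⟩, trivial⟩,
    ⟨⟨_, D_04.u4989_2_2⟩, trivial⟩,
    ⟨⟨_, D_04.u4989_3_3⟩, trivial⟩,
    ⟨⟨_, D_04.u4989_4_4⟩, trivial⟩,
    ⟨⟨_, D_04.u4989_5_5⟩, trivial⟩,
    ⟨⟨_, D_04.u4989_6_6⟩, trivial⟩,
    ⟨⟨_, D_04.u4989_7_7⟩, trivial⟩,
    ⟨⟨_, D_04.u4989_8_8⟩, trivial⟩,
    ⟨⟨_, D_04.u4989_9_9⟩, trivial⟩,
    ⟨⟨_, D_04.u4989_10_10⟩, trivial⟩,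
    ⟨⟨_, D_04.u4989_11_11⟩, trivial⟩,
    ⟨⟨_, D_04.u4989_12_12⟩, trivial⟩,
    ⟨⟨_, D_04.u4989_13_13⟩, trivial⟩,
    ⟨⟨_, D_04.u4989_14_14⟩, trivial⟩,
    ⟨⟨_, D_04.u4989_15_15⟩, trivial⟩,
    ⟨⟨_, D_04.u4989_16_16⟩, trivial⟩,
    ⟨⟨_, D_04.u4989_17_17⟩, trivial⟩,
    ⟨⟨_, D_04.u4989_18_18⟩, trivial⟩,
    ⟨⟨_, D_04.u4989_19_19⟩, trivial⟩,
    ⟨⟨_, D_04.u4989_20_20⟩, trivial⟩,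
    ⟨⟨_, D_04.u4989_21_21⟩, trivial⟩,
    ⟨⟨_, D_04.u4989_22_22⟩, trivial⟩,
    ⟨⟨_, D_04.u4989_23_23⟩, trivial⟩,
    ⟨⟨_, D_04.u4989_24_24⟩, trivial⟩,
    ⟨⟨_, D_04.u4989_25_25⟩, trivial⟩,
    ⟨⟨_, D_04.u4989_26_26⟩, trivial⟩,
    ⟨⟨_, D_04.u4989_27_27⟩, trivial⟩,
    ⟨⟨_, D_04.u4989_28_28⟩, trivial⟩,
    ⟨⟨_, D_04.u4989_29_29⟩, trivial⟩,
    ⟨⟨_, D_04.u4989_30_30⟩, trivial⟩,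
    ⟨⟨_, D_04.u4989_31_31⟩, trivial⟩,
    ⟨⟨_, D_04.u4989_32_32⟩, trivial⟩,
    ⟨⟨_, D_04.u4989_33_33⟩, trivial⟩,
    ⟨⟨_, D_04.u4989_34_34⟩, trivial⟩,
    ⟨⟨_, D_04.u4989_35_35⟩, trivial⟩,
    ⟨⟨_, D_04.u4989_36_36⟩, trivial⟩,
    ⟨⟨_, D_04.u4989_37_37⟩, trivial⟩,
    ⟨⟨_, D_04.u4989_38_38⟩, trivial⟩,
    ⟨⟨_, D_04.u4989_39_39⟩, trivial⟩,
    ⟨⟨_, D_04.u4989_40_40⟩, trivial⟩,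
    ⟨⟨_, D_04.u4989_41_41⟩, trivial⟩,
    ⟨⟨_, D_04.u4989_42_42⟩, trivial⟩,
    ⟨⟨_, D_04.u4989_43_43⟩, trivial⟩,
    ⟨⟨_, D_04.u4989_44_44⟩, trivial⟩,
    ⟨⟨_, D_04.u4989_45_45⟩, trivial⟩,
    ⟨⟨_, D_04.u4989_46_46⟩, trivial⟩,
    ⟨⟨_, D_04.u4989_47_47⟩, trivial⟩,
    ⟨⟨_, D_04.u4989_48_48⟩, trivial⟩, trivial⟩

theorem r4990 : RowDead typ nl lane 4990 :=
  rowDead_of_units (dok_oD hg ht) typ_lt lane_lt (tieB_mem Tie.tl4990 (4990, l4990) (List.mem_singleton.2 rfl))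
    (nss := [[14], [13], [12], [11], [10], [9], [8], [7], [6], [5], [4], [3], [2], [1]]) (by decide +kernel)
   ⟨⟨⟨_, D_04.u4990_0_0⟩, trivial⟩,
    ⟨⟨_, D_04.u4990_1_1⟩, trivial⟩,
    ⟨⟨_, D_04.u4990_2_2⟩, trivial⟩,
    ⟨⟨_, D_04.u4990_3_3⟩, trivial⟩,
    ⟨⟨_, D_04.u4990_4_4⟩, trivial⟩,
    ⟨⟨_, D_04.u4990_5_5⟩, trivial⟩,
    ⟨⟨_, D_04.u4990_6_6⟩, trivial⟩,
    ⟨⟨_, D_04.u4990_7_7⟩, trivial⟩,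
    ⟨⟨_, D_04.u4990_8_8⟩, trivial⟩,
    ⟨⟨_, D_04.u4990_9_9⟩, trivial⟩,
    ⟨⟨_, D_04.u4990_10_10⟩, trivial⟩,
    ⟨⟨_, D_04.u4990_11_11⟩, trivial⟩,
    ⟨⟨_, D_04.u4990_12_12⟩, trivial⟩,
    ⟨⟨_, D_04.u4990_13_13⟩, trivial⟩, trivial⟩

theorem r4991 : RowDead typ nl lane 4991 :=
  rowDead_of_units (dok_oD hg ht) typ_lt lane_lt (tieB_mem Tie.tl4991 (4991, l4991) (List.mem_singleton.2 rfl))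
    (nss := [[34], [33], [32], [31], [30], [29], [28], [27], [26], [25], [24], [23], [22], [21], [20], [19], [18], [17], [16], [15], [14], [13], [12], [11], [10], [9], [8], [7], [6], [5], [4], [3], [2], [1]]) (by decide +kernel)
   ⟨⟨⟨_, D_04.u4991_0_0⟩, trivial⟩,
    ⟨⟨_, D_04.u4991_1_1⟩, trivial⟩,
    ⟨⟨_, D_04.u4991_2_2⟩, trivial⟩,
    ⟨⟨_, D_04.u4991_3_3⟩, trivial⟩,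
    ⟨⟨_, D_04.u4991_4_4⟩, trivial⟩,
    ⟨⟨_, D_04.u4991_5_5⟩, trivial⟩,
    ⟨⟨_, D_04.u4991_6_6⟩, trivial⟩,
    ⟨⟨_, D_04.u4991_7_7⟩, trivial⟩,
    ⟨⟨_, D_04.u4991_8_8⟩, trivial⟩,
    ⟨⟨_, D_04.u4991_9_9⟩, trivial⟩,
    ⟨⟨_, D_04.u4991_10_10⟩, trivial⟩,
    ⟨⟨_, D_04.u4991_11_11⟩, trivial⟩,
    ⟨⟨_, D_04.u4991_12_12⟩, trivial⟩,
    ⟨⟨_, D_04.u4991_13_13⟩, trivial⟩,
    ⟨⟨_, D_04.u4991_14_14⟩, trivial⟩,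
    ⟨⟨_, D_04.u4991_15_15⟩, trivial⟩,
    ⟨⟨_, D_04.u4991_16_16⟩, trivial⟩,
    ⟨⟨_, D_04.u4991_17_17⟩, trivial⟩,
    ⟨⟨_, D_04.u4991_18_18⟩, trivial⟩,
    ⟨⟨_, D_04.u4991_19_19⟩, trivial⟩,
    ⟨⟨_, D_04.u4991_20_20⟩, trivial⟩,
    ⟨⟨_, D_04.u4991_21_21⟩, trivial⟩,
    ⟨⟨_, D_04.u4991_22_22⟩, trivial⟩,
    ⟨⟨_, D_04.u4991_23_23⟩, trivial⟩,
    ⟨⟨_, D_04.u4991_24_24⟩, trivial⟩,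
    ⟨⟨_, D_04.u4991_25_25⟩, trivial⟩,
    ⟨⟨_, D_04.u4991_26_26⟩, trivial⟩,
    ⟨⟨_, D_04.u4991_27_27⟩, trivial⟩,
    ⟨⟨_, D_04.u4991_28_28⟩, trivial⟩,
    ⟨⟨_, D_04.u4991_29_29⟩, trivial⟩,
    ⟨⟨_, D_04.u4991_30_30⟩, trivial⟩,
    ⟨⟨_, D_04.u4991_31_31⟩, trivial⟩,
    ⟨⟨_, D_04.u4991_32_32⟩, trivial⟩,
    ⟨⟨_, D_04.u4991_33_33⟩, trivial⟩, trivial⟩

theorem r4993 : RowDead typ nl lane 4993 :=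
  rowDead_of_units (dok_oD hg ht) typ_lt lane_lt (tieB_mem Tie.tl4993 (4993, l4993) (List.mem_singleton.2 rfl))
    (nss := [[17], [16], [15], [14], [13], [12], [11], [10], [9], [8], [7], [6], [5], [4], [3], [2], [1]]) (by decide +kernel)
   ⟨⟨⟨_, D_04.u4993_0_0⟩, trivial⟩,
    ⟨⟨_, D_04.u4993_1_1⟩, trivial⟩,
    ⟨⟨_, D_04.u4993_2_2⟩, trivial⟩,
    ⟨⟨_, D_04.u4993_3_3⟩, trivial⟩,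
    ⟨⟨_, D_04.u4993_4_4⟩, trivial⟩,
    ⟨⟨_, D_04.u4993_5_5⟩, trivial⟩,
    ⟨⟨_, D_04.u4993_6_6⟩, trivial⟩,
    ⟨⟨_, D_04.u4993_7_7⟩, trivial⟩,
    ⟨⟨_, D_04.u4993_8_8⟩, trivial⟩,
    ⟨⟨_, D_04.u4993_9_9⟩, trivial⟩,
    ⟨⟨_, D_04.u4993_10_10⟩, trivial⟩,
    ⟨⟨_, D_04.u4993_11_11⟩, trivial⟩,
    ⟨⟨_, D_04.u4993_12_12⟩, trivial⟩,
    ⟨⟨_, D_04.u4993_13_13⟩, trivial⟩,
    ⟨⟨_, D_04.u4993_14_14⟩, trivial⟩,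
    ⟨⟨_, D_04.u4993_15_15⟩, trivial⟩,
    ⟨⟨_, D_04.u4993_16_16⟩, trivial⟩, trivial⟩

theorem r4994 : RowDead typ nl lane 4994 :=
  rowDead_of_units (dok_oD hg ht) typ_lt lane_lt (tieB_mem Tie.tl4994 (4994, l4994) (List.mem_singleton.2 rfl))
    (nss := [[13], [12], [11], [10], [9], [8], [7], [6], [5], [4], [3], [2], [1]]) (by decide +kernel)
   ⟨⟨⟨_, D_04.u4994_0_0⟩, trivial⟩,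
    ⟨⟨_, D_04.u4994_1_1⟩, trivial⟩,
    ⟨⟨_, D_04.u4994_2_2⟩, trivial⟩,
    ⟨⟨_, D_04.u4994_3_3⟩, trivial⟩,
    ⟨⟨_, D_04.u4994_4_4⟩, trivial⟩,
    ⟨⟨_, D_04.u4994_5_5⟩, trivial⟩,
    ⟨⟨_, D_04.u4994_6_6⟩, trivial⟩,
    ⟨⟨_, D_04.u4994_7_7⟩, trivial⟩,
    ⟨⟨_, D_04.u4994_8_8⟩, trivial⟩,
    ⟨⟨_, D_04.u4994_9_9⟩, trivial⟩,
    ⟨⟨_, D_04.u4994_10_10⟩, trivial⟩,
    ⟨⟨_, D_04.u4994_11_11⟩, trivial⟩,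
    ⟨⟨_, D_04.u4994_12_12⟩, trivial⟩, trivial⟩

theorem r5021 : RowDead typ nl lane 5021 :=
  rowDead_of_units (dok_oD hg ht) typ_lt lane_lt (tieB_mem Tie.tl5021 (5021, l5021) (List.mem_singleton.2 rfl))
    (nss := [[8, 3], [7, 3], [6, 3], [5, 3], [7], [6], [5], [4], [3], [2], [1]]) (by decide +kernel)
   ⟨⟨⟨_, D_04.u5021_0_0⟩, ⟨_, D_04.u5021_0_8⟩, trivial⟩,
    ⟨⟨_, D_04.u5021_1_1⟩, ⟨_, D_04.u5021_1_8⟩, trivial⟩,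
    ⟨⟨_, D_04.u5021_2_2⟩, ⟨_, D_04.u5021_2_8⟩, trivial⟩,
    ⟨⟨_, D_04.u5021_3_3⟩, ⟨_, D_04.u5021_3_8⟩, trivial⟩,
    ⟨⟨_, D_04.u5021_4_4⟩, trivial⟩,
    ⟨⟨_, D_04.u5021_5_5⟩, trivial⟩,
    ⟨⟨_, D_04.u5021_6_6⟩, trivial⟩,
    ⟨⟨_, D_04.u5021_7_7⟩, trivial⟩,
    ⟨⟨_, D_04.u5021_8_8⟩, trivial⟩,
    ⟨⟨_, D_04.u5021_9_9⟩, trivial⟩,
    ⟨⟨_, D_04.u5021_10_10⟩, trivial⟩, trivial⟩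

theorem r5022 : RowDead typ nl lane 5022 :=
  rowDead_of_units (dok_oD hg ht) typ_lt lane_lt (tieB_mem Tie.tl5022 (5022, l5022) (List.mem_singleton.2 rfl))
    (nss := [[13, 1, 11], [13, 11], [11, 1, 11], [10, 1, 11], [6, 4, 1, 3, 7], [4, 2, 4, 4, 6], [4, 4, 1, 3, 7], [3, 4, 1, 4, 6], [6, 9, 2], [5, 9, 2], [4, 10, 1], [3, 10, 1], [13], [12], [8, 3], [10], [9], [8], [7], [6], [5], [4], [3], [2], [1]]) (by decide +kernel)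
   ⟨⟨⟨_, D_04.u5022_0_0⟩, ⟨_, D_04.u5022_0_13⟩, ⟨_, D_04.u5022_0_14⟩, trivial⟩,
    ⟨⟨_, D_04.u5022_1_1⟩, ⟨_, D_04.u5022_1_14⟩, trivial⟩,
    ⟨⟨_, D_04.u5022_2_2⟩, ⟨_, D_04.u5022_2_13⟩, ⟨_, D_04.u5022_2_14⟩, trivial⟩,
    ⟨⟨_, D_04.u5022_3_3⟩, ⟨_, D_04.u5022_3_13⟩, ⟨_, D_04.u5022_3_14⟩, trivial⟩,
    ⟨⟨_, D_04.u5022_4_4⟩, ⟨_, D_04.u5022_4_10⟩, ⟨_, D_04.u5022_4_14⟩, ⟨_, D_04.u5022_4_15⟩, ⟨_, D_04.u5022_4_18⟩, trivial⟩,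
    ⟨⟨_, D_04.u5022_5_5⟩, ⟨_, D_04.u5022_5_9⟩, ⟨_, D_04.u5022_5_11⟩, ⟨_, D_04.u5022_5_15⟩, ⟨_, D_04.u5022_5_19⟩, trivial⟩,
    ⟨⟨_, D_04.u5022_6_6⟩, ⟨_, D_04.u5022_6_10⟩, ⟨_, D_04.u5022_6_14⟩, ⟨_, D_04.u5022_6_15⟩, ⟨_, D_04.u5022_6_18⟩, trivial⟩,
    ⟨⟨_, D_04.u5022_7_7⟩, ⟨_, D_04.u5022_7_10⟩, ⟨_, D_04.u5022_7_14⟩, ⟨_, D_04.u5022_7_15⟩, ⟨_, D_04.u5022_7_19⟩, trivial⟩,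
    ⟨⟨_, D_04.u5022_8_8⟩, ⟨_, D_04.u5022_8_14⟩, ⟨_, D_04.u5022_8_23⟩, trivial⟩,
    ⟨⟨_, D_04.u5022_9_9⟩, ⟨_, D_04.u5022_9_14⟩, ⟨_, D_04.u5022_9_23⟩, trivial⟩,
    ⟨⟨_, D_04.u5022_10_10⟩, ⟨_, D_04.u5022_10_14⟩, ⟨_, D_04.u5022_10_24⟩, trivial⟩,
    ⟨⟨_, D_04.u5022_11_11⟩, ⟨_, D_04.u5022_11_14⟩, ⟨_, D_04.u5022_11_24⟩, trivial⟩,
    ⟨⟨_, D_04.u5022_12_12⟩, trivial⟩,
    ⟨⟨_, D_04.u5022_13_13⟩, trivial⟩,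
    ⟨⟨_, D_04.u5022_14_14⟩, ⟨_, D_04.u5022_14_22⟩, trivial⟩,
    ⟨⟨_, D_04.u5022_15_15⟩, trivial⟩,
    ⟨⟨_, D_04.u5022_16_16⟩, trivial⟩,
    ⟨⟨_, D_04.u5022_17_17⟩, trivial⟩,
    ⟨⟨_, D_04.u5022_18_18⟩, trivial⟩,
    ⟨⟨_, D_04.u5022_19_19⟩, trivial⟩,
    ⟨⟨_, D_04.u5022_20_20⟩, trivial⟩,
    ⟨⟨_, D_04.u5022_21_21⟩, trivial⟩,
    ⟨⟨_, D_04.u5022_22_22⟩, trivial⟩,
    ⟨⟨_, D_04.u5022_23_23⟩, trivial⟩,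
    ⟨⟨_, D_04.u5022_24_24⟩, trivial⟩, trivial⟩

theorem r5024 : RowDead typ nl lane 5024 :=
  rowDead_of_units (dok_oD hg ht) typ_lt lane_lt (tieB_mem Tie.tl5024 (5024, l5024) (List.mem_singleton.2 rfl))
    (nss := [[3, 1], [3], [2], [1]]) (by decide +kernel)
   ⟨⟨⟨_, D_04.u5024_0_0⟩, ⟨_, D_04.u5024_0_3⟩, trivial⟩,
    ⟨⟨_, D_04.u5024_1_1⟩, trivial⟩,
    ⟨⟨_, D_04.u5024_2_2⟩, trivial⟩,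
    ⟨⟨_, D_04.u5024_3_3⟩, trivial⟩, trivial⟩

theorem r5025 : RowDead typ nl lane 5025 :=
  rowDead_of_units (dok_oD hg ht) typ_lt lane_lt (tieB_mem Tie.tl5025 (5025, l5025) (List.mem_singleton.2 rfl))
    (nss := [[48], [47], [46], [45], [44], [43], [42], [41], [32, 8], [31, 8], [38], [37], [36], [35], [34], [33], [32], [31], [30], [29], [28], [27], [26], [25], [24], [23], [22], [21], [20], [19], [18], [17], [16], [15], [14], [13], [12], [11], [5, 2, 3], [5, 4], [3, 2, 3], [3, 4], [6], [5], [4], [3], [2], [1]]) (by decide +kernel)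
   ⟨⟨⟨_, D_04.u5025_0_0⟩, trivial⟩,
    ⟨⟨_, D_04.u5025_1_1⟩, trivial⟩,
    ⟨⟨_, D_04.u5025_2_2⟩, trivial⟩,
    ⟨⟨_, D_04.u5025_3_3⟩, trivial⟩,
    ⟨⟨_, D_04.u5025_4_4⟩, trivial⟩,
    ⟨⟨_, D_04.u5025_5_5⟩, trivial⟩,
    ⟨⟨_, D_04.u5025_6_6⟩, trivial⟩,
    ⟨⟨_, D_04.u5025_7_7⟩, trivial⟩,
    ⟨⟨_, D_04.u5025_8_8⟩, ⟨_, D_04.u5025_8_40⟩, trivial⟩,
    ⟨⟨_, D_04.u5025_9_9⟩, ⟨_, D_04.u5025_9_40⟩, trivial⟩,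
    ⟨⟨_, D_04.u5025_10_10⟩, trivial⟩,
    ⟨⟨_, D_04.u5025_11_11⟩, trivial⟩,
    ⟨⟨_, D_04.u5025_12_12⟩, trivial⟩,
    ⟨⟨_, D_04.u5025_13_13⟩, trivial⟩,
    ⟨⟨_, D_04.u5025_14_14⟩, trivial⟩,
    ⟨⟨_, D_04.u5025_15_15⟩, trivial⟩,
    ⟨⟨_, D_04.u5025_16_16⟩, trivial⟩,
    ⟨⟨_, D_04.u5025_17_17⟩, trivial⟩,
    ⟨⟨_, D_04.u5025_18_18⟩, trivial⟩,
    ⟨⟨_, D_04.u5025_19_19⟩, trivial⟩,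
    ⟨⟨_, D_04.u5025_20_20⟩, trivial⟩,
    ⟨⟨_, D_04.u5025_21_21⟩, trivial⟩,
    ⟨⟨_, D_04.u5025_22_22⟩, trivial⟩,
    ⟨⟨_, D_04.u5025_23_23⟩, trivial⟩,
    ⟨⟨_, D_04.u5025_24_24⟩, trivial⟩,
    ⟨⟨_, D_04.u5025_25_25⟩, trivial⟩,
    ⟨⟨_, D_04.u5025_26_26⟩, trivial⟩,
    ⟨⟨_, D_04.u5025_27_27⟩, trivial⟩,
    ⟨⟨_, D_04.u5025_28_28⟩, trivial⟩,
    ⟨⟨_, D_04.u5025_29_29⟩, trivial⟩,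
    ⟨⟨_, D_04.u5025_30_30⟩, trivial⟩,
    ⟨⟨_, D_04.u5025_31_31⟩, trivial⟩,
    ⟨⟨_, D_04.u5025_32_32⟩, trivial⟩,
    ⟨⟨_, D_04.u5025_33_33⟩, trivial⟩,
    ⟨⟨_, D_04.u5025_34_34⟩, trivial⟩,
    ⟨⟨_, D_04.u5025_35_35⟩, trivial⟩,
    ⟨⟨_, D_04.u5025_36_36⟩, trivial⟩,
    ⟨⟨_, D_04.u5025_37_37⟩, trivial⟩,
    ⟨⟨_, D_04.u5025_38_38⟩, ⟨_, D_04.u5025_38_43⟩, ⟨_, D_04.u5025_38_45⟩, trivial⟩,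
    ⟨⟨_, D_04.u5025_39_39⟩, ⟨_, D_04.u5025_39_44⟩, trivial⟩,
    ⟨⟨_, D_04.u5025_40_40⟩, ⟨_, D_04.u5025_40_43⟩, ⟨_, D_04.u5025_40_45⟩, trivial⟩,
    ⟨⟨_, D_04.u5025_41_41⟩, ⟨_, D_04.u5025_41_44⟩, trivial⟩,
    ⟨⟨_, D_04.u5025_42_42⟩, trivial⟩,
    ⟨⟨_, D_04.u5025_43_43⟩, trivial⟩,
    ⟨⟨_, D_04.u5025_44_44⟩, trivial⟩,
    ⟨⟨_, D_04.u5025_45_45⟩, trivial⟩,
    ⟨⟨_, D_04.u5025_46_46⟩, trivial⟩,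
    ⟨⟨_, D_04.u5025_47_47⟩, trivial⟩, trivial⟩

theorem r5026 : RowDead typ nl lane 5026 :=
  rowDead_of_units (dok_oD hg ht) typ_lt lane_lt (tieB_mem Tie.tl5026 (5026, l5026) (List.mem_singleton.2 rfl))
    (nss := [[38], [37], [36], [35], [34], [20, 13], [32], [31], [30], [29], [28], [27], [26], [25], [24], [23], [22], [21], [20], [19], [18], [17], [16], [15], [14], [13], [12], [11], [10], [9], [8], [7], [6], [5], [4], [3], [2], [1]]) (by decide +kernel)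
   ⟨⟨⟨_, D_04.u5026_0_0⟩, trivial⟩,
    ⟨⟨_, D_04.u5026_1_1⟩, trivial⟩,
    ⟨⟨_, D_04.u5026_2_2⟩, trivial⟩,
    ⟨⟨_, D_04.u5026_3_3⟩, trivial⟩,
    ⟨⟨_, D_04.u5026_4_4⟩, trivial⟩,
    ⟨⟨_, D_04.u5026_5_5⟩, ⟨_, D_04.u5026_5_25⟩, trivial⟩,
    ⟨⟨_, D_04.u5026_6_6⟩, trivial⟩,
    ⟨⟨_, D_04.u5026_7_7⟩, trivial⟩,
    ⟨⟨_, D_04.u5026_8_8⟩, trivial⟩,
    ⟨⟨_, D_04.u5026_9_9⟩, trivial⟩,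
    ⟨⟨_, D_04.u5026_10_10⟩, trivial⟩,
    ⟨⟨_, D_04.u5026_11_11⟩, trivial⟩,
    ⟨⟨_, D_04.u5026_12_12⟩, trivial⟩,
    ⟨⟨_, D_04.u5026_13_13⟩, trivial⟩,
    ⟨⟨_, D_04.u5026_14_14⟩, trivial⟩,
    ⟨⟨_, D_04.u5026_15_15⟩, trivial⟩,
    ⟨⟨_, D_04.u5026_16_16⟩, trivial⟩,
    ⟨⟨_, D_04.u5026_17_17⟩, trivial⟩,
    ⟨⟨_, D_04.u5026_18_18⟩, trivial⟩,
    ⟨⟨_, D_04.u5026_19_19⟩, trivial⟩,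
    ⟨⟨_, D_04.u5026_20_20⟩, trivial⟩,
    ⟨⟨_, D_04.u5026_21_21⟩, trivial⟩,
    ⟨⟨_, D_04.u5026_22_22⟩, trivial⟩,
    ⟨⟨_, D_04.u5026_23_23⟩, trivial⟩,
    ⟨⟨_, D_04.u5026_24_24⟩, trivial⟩,
    ⟨⟨_, D_04.u5026_25_25⟩, trivial⟩,
    ⟨⟨_, D_04.u5026_26_26⟩, trivial⟩,
    ⟨⟨_, D_04.u5026_27_27⟩, trivial⟩,
    ⟨⟨_, D_04.u5026_28_28⟩, trivial⟩,
    ⟨⟨_, D_04.u5026_29_29⟩, trivial⟩,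
    ⟨⟨_, D_04.u5026_30_30⟩, trivial⟩,
    ⟨⟨_, D_04.u5026_31_31⟩, trivial⟩,
    ⟨⟨_, D_04.u5026_32_32⟩, trivial⟩,
    ⟨⟨_, D_04.u5026_33_33⟩, trivial⟩,
    ⟨⟨_, D_04.u5026_34_34⟩, trivial⟩,
    ⟨⟨_, D_04.u5026_35_35⟩, trivial⟩,
    ⟨⟨_, D_04.u5026_36_36⟩, trivial⟩,
    ⟨⟨_, D_04.u5026_37_37⟩, trivial⟩, trivial⟩

theorem r5027 : RowDead typ nl lane 5027 :=
  rowDead_of_units (dok_oD hg ht) typ_lt lane_lt (tieB_mem Tie.tl5027 (5027, l5027) (List.mem_singleton.2 rfl))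
    (nss := [[23], [22], [21], [19, 1], [19], [18], [17], [16], [15], [14], [13], [12], [11], [10], [9], [8], [7], [6], [5], [4], [3], [2], [1]]) (by decide +kernel)
   ⟨⟨⟨_, D_04.u5027_0_0⟩, trivial⟩,
    ⟨⟨_, D_04.u5027_1_1⟩, trivial⟩,
    ⟨⟨_, D_04.u5027_2_2⟩, trivial⟩,
    ⟨⟨_, D_04.u5027_3_3⟩, ⟨_, D_04.u5027_3_22⟩, trivial⟩,
    ⟨⟨_, D_04.u5027_4_4⟩, trivial⟩,
    ⟨⟨_, D_04.u5027_5_5⟩, trivial⟩,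
    ⟨⟨_, D_04.u5027_6_6⟩, trivial⟩,
    ⟨⟨_, D_04.u5027_7_7⟩, trivial⟩,
    ⟨⟨_, D_04.u5027_8_8⟩, trivial⟩,
    ⟨⟨_, D_04.u5027_9_9⟩, trivial⟩,
    ⟨⟨_, D_04.u5027_10_10⟩, trivial⟩,
    ⟨⟨_, D_04.u5027_11_11⟩, trivial⟩,
    ⟨⟨_, D_04.u5027_12_12⟩, trivial⟩,
    ⟨⟨_, D_04.u5027_13_13⟩, trivial⟩,
    ⟨⟨_, D_04.u5027_14_14⟩, trivial⟩,
    ⟨⟨_, D_04.u5027_15_15⟩, trivial⟩,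
    ⟨⟨_, D_04.u5027_16_16⟩, trivial⟩,
    ⟨⟨_, D_04.u5027_17_17⟩, trivial⟩,
    ⟨⟨_, D_04.u5027_18_18⟩, trivial⟩,
    ⟨⟨_, D_04.u5027_19_19⟩, trivial⟩,
    ⟨⟨_, D_04.u5027_20_20⟩, trivial⟩,
    ⟨⟨_, D_04.u5027_21_21⟩, trivial⟩,
    ⟨⟨_, D_04.u5027_22_22⟩, trivial⟩, trivial⟩

theorem r5045 : RowDead typ nl lane 5045 :=
  rowDead_of_units (dok_oD hg ht) typ_lt lane_lt (tieB_mem Tie.tl5045 (5045, l5045) (List.mem_singleton.2 rfl))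
    (nss := [[9, 12], [20], [7, 1, 3, 8], [6, 1, 2, 9], [5, 1, 4, 7], [4, 1, 3, 8], [15], [14], [13], [12], [11], [10], [9], [8], [7], [6], [5], [4], [3], [2], [1]]) (by decide +kernel)
   ⟨⟨⟨_, D_04.u5045_0_0⟩, ⟨_, D_04.u5045_0_9⟩, trivial⟩,
    ⟨⟨_, D_04.u5045_1_1⟩, trivial⟩,
    ⟨⟨_, D_04.u5045_2_2⟩, ⟨_, D_04.u5045_2_9⟩, ⟨_, D_04.u5045_2_10⟩, ⟨_, D_04.u5045_2_13⟩, trivial⟩,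
    ⟨⟨_, D_04.u5045_3_3⟩, ⟨_, D_04.u5045_3_9⟩, ⟨_, D_04.u5045_3_10⟩, ⟨_, D_04.u5045_3_12⟩, trivial⟩,
    ⟨⟨_, D_04.u5045_4_4⟩, ⟨_, D_04.u5045_4_9⟩, ⟨_, D_04.u5045_4_10⟩, ⟨_, D_04.u5045_4_14⟩, trivial⟩,
    ⟨⟨_, D_04.u5045_5_5⟩, ⟨_, D_04.u5045_5_9⟩, ⟨_, D_04.u5045_5_10⟩, ⟨_, D_04.u5045_5_13⟩, trivial⟩,
    ⟨⟨_, D_04.u5045_6_6⟩, trivial⟩,
    ⟨⟨_, D_04.u5045_7_7⟩, trivial⟩,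
    ⟨⟨_, D_04.u5045_8_8⟩, trivial⟩,
    ⟨⟨_, D_04.u5045_9_9⟩, trivial⟩,
    ⟨⟨_, D_04.u5045_10_10⟩, trivial⟩,
    ⟨⟨_, D_04.u5045_11_11⟩, trivial⟩,
    ⟨⟨_, D_04.u5045_12_12⟩, trivial⟩,
    ⟨⟨_, D_04.u5045_13_13⟩, trivial⟩,
    ⟨⟨_, D_04.u5045_14_14⟩, trivial⟩,
    ⟨⟨_, D_04.u5045_15_15⟩, trivial⟩,
    ⟨⟨_, D_04.u5045_16_16⟩, trivial⟩,
    ⟨⟨_, D_04.u5045_17_17⟩, trivial⟩,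
    ⟨⟨_, D_04.u5045_18_18⟩, trivial⟩,
    ⟨⟨_, D_04.u5045_19_19⟩, trivial⟩,
    ⟨⟨_, D_04.u5045_20_20⟩, trivial⟩, trivial⟩

theorem r5046 : RowDead typ nl lane 5046 :=
  rowDead_of_units (dok_oD hg ht) typ_lt lane_lt (tieB_mem Tie.tl5046 (5046, l5046) (List.mem_singleton.2 rfl))
    (nss := [[2, 1, 1], [2, 1], [2], [1]]) (by decide +kernel)
   ⟨⟨⟨_, D_04.u5046_0_0⟩, ⟨_, D_04.u5046_0_2⟩, ⟨_, D_04.u5046_0_3⟩, trivial⟩,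
    ⟨⟨_, D_04.u5046_1_1⟩, ⟨_, D_04.u5046_1_3⟩, trivial⟩,
    ⟨⟨_, D_04.u5046_2_2⟩, trivial⟩,
    ⟨⟨_, D_04.u5046_3_3⟩, trivial⟩, trivial⟩

theorem r5054 : RowDead typ nl lane 5054 :=
  rowDead_of_units (dok_oD hg ht) typ_lt lane_lt (tieB_mem Tie.tl5054 (5054, l5054) (List.mem_singleton.2 rfl))
    (nss := [[5], [3, 1], [3], [2], [1]]) (by decide +kernel)
   ⟨⟨⟨_, D_04.u5054_0_0⟩, trivial⟩,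
    ⟨⟨_, D_04.u5054_1_1⟩, ⟨_, D_04.u5054_1_4⟩, trivial⟩,
    ⟨⟨_, D_05.u5054_2_2⟩, trivial⟩,
    ⟨⟨_, D_05.u5054_3_3⟩, trivial⟩,
    ⟨⟨_, D_05.u5054_4_4⟩, trivial⟩, trivial⟩

theorem r5055 : RowDead typ nl lane 5055 :=
  rowDead_of_units (dok_oD hg ht) typ_lt lane_lt (tieB_mem Tie.tl5055 (5055, l5055) (List.mem_singleton.2 rfl))
    (nss := [[12], [11], [10], [9], [8], [7], [6], [5], [4], [3], [2], [1]]) (by decide +kernel)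
   ⟨⟨⟨_, D_05.u5055_0_0⟩, trivial⟩,
    ⟨⟨_, D_05.u5055_1_1⟩, trivial⟩,
    ⟨⟨_, D_05.u5055_2_2⟩, trivial⟩,
    ⟨⟨_, D_05.u5055_3_3⟩, trivial⟩,
    ⟨⟨_, D_05.u5055_4_4⟩, trivial⟩,
    ⟨⟨_, D_05.u5055_5_5⟩, trivial⟩,
    ⟨⟨_, D_05.u5055_6_6⟩, trivial⟩,
    ⟨⟨_, D_05.u5055_7_7⟩, trivial⟩,
    ⟨⟨_, D_05.u5055_8_8⟩, trivial⟩,
    ⟨⟨_, D_05.u5055_9_9⟩, trivial⟩,
    ⟨⟨_, D_05.u5055_10_10⟩, trivial⟩,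
    ⟨⟨_, D_05.u5055_11_11⟩, trivial⟩, trivial⟩

theorem r5056 : RowDead typ nl lane 5056 :=
  rowDead_of_units (dok_oD hg ht) typ_lt lane_lt (tieB_mem Tie.tl5056 (5056, l5056) (List.mem_singleton.2 rfl))
    (nss := [[14, 19, 5, 5, 3], [14, 16, 9, 5, 1], [44], [43], [42], [41], [40], [39], [38], [37], [36], [35], [34], [33], [32], [31], [30], [29], [28], [27], [26], [25], [24], [23], [22], [21], [20], [19], [18], [17], [14, 2], [14, 1], [14], [13], [12], [11], [10], [9], [5, 3], [5, 2], [6], [5], [4], [3], [2], [1]]) (by decide +kernel)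
   ⟨⟨⟨_, D_05.u5056_0_0⟩, ⟨_, D_05.u5056_0_14⟩, ⟨_, D_05.u5056_0_33⟩, ⟨_, D_05.u5056_0_38⟩, ⟨_, D_05.u5056_0_43⟩, trivial⟩,
    ⟨⟨_, D_05.u5056_1_1⟩, ⟨_, D_05.u5056_1_15⟩, ⟨_, D_05.u5056_1_31⟩, ⟨_, D_05.u5056_1_40⟩, ⟨_, D_05.u5056_1_45⟩, trivial⟩,
    ⟨⟨_, D_05.u5056_2_2⟩, trivial⟩,
    ⟨⟨_, D_05.u5056_3_3⟩, trivial⟩,
    ⟨⟨_, D_05.u5056_4_4⟩, trivial⟩,
    ⟨⟨_, D_05.u5056_5_5⟩, trivial⟩,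
    ⟨⟨_, D_05.u5056_6_6⟩, trivial⟩,
    ⟨⟨_, D_05.u5056_7_7⟩, trivial⟩,
    ⟨⟨_, D_05.u5056_8_8⟩, trivial⟩,
    ⟨⟨_, D_05.u5056_9_9⟩, trivial⟩,
    ⟨⟨_, D_05.u5056_10_10⟩, trivial⟩,
    ⟨⟨_, D_05.u5056_11_11⟩, trivial⟩,
    ⟨⟨_, D_05.u5056_12_12⟩, trivial⟩,
    ⟨⟨_, D_05.u5056_13_13⟩, trivial⟩,
    ⟨⟨_, D_05.u5056_14_14⟩, trivial⟩,
    ⟨⟨_, D_05.u5056_15_15⟩, trivial⟩,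
    ⟨⟨_, D_05.u5056_16_16⟩, trivial⟩,
    ⟨⟨_, D_05.u5056_17_17⟩, trivial⟩,
    ⟨⟨_, D_05.u5056_18_18⟩, trivial⟩,
    ⟨⟨_, D_05.u5056_19_19⟩, trivial⟩,
    ⟨⟨_, D_05.u5056_20_20⟩, trivial⟩,
    ⟨⟨_, D_05.u5056_21_21⟩, trivial⟩,
    ⟨⟨_, D_05.u5056_22_22⟩, trivial⟩,
    ⟨⟨_, D_05.u5056_23_23⟩, trivial⟩,
    ⟨⟨_, D_05.u5056_24_24⟩, trivial⟩,
    ⟨⟨_, D_05.u5056_25_25⟩, trivial⟩,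
    ⟨⟨_, D_05.u5056_26_26⟩, trivial⟩,
    ⟨⟨_, D_05.u5056_27_27⟩, trivial⟩,
    ⟨⟨_, D_05.u5056_28_28⟩, trivial⟩,
    ⟨⟨_, D_05.u5056_29_29⟩, trivial⟩,
    ⟨⟨_, D_05.u5056_30_30⟩, ⟨_, D_05.u5056_30_44⟩, trivial⟩,
    ⟨⟨_, D_05.u5056_31_31⟩, ⟨_, D_05.u5056_31_45⟩, trivial⟩,
    ⟨⟨_, D_05.u5056_32_32⟩, trivial⟩,
    ⟨⟨_, D_05.u5056_33_33⟩, trivial⟩,
    ⟨⟨_, D_05.u5056_34_34⟩, trivial⟩,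
    ⟨⟨_, D_05.u5056_35_35⟩, trivial⟩,
    ⟨⟨_, D_05.u5056_36_36⟩, trivial⟩,
    ⟨⟨_, D_05.u5056_37_37⟩, trivial⟩,
    ⟨⟨_, D_05.u5056_38_38⟩, ⟨_, D_05.u5056_38_43⟩, trivial⟩,
    ⟨⟨_, D_05.u5056_39_39⟩, ⟨_, D_05.u5056_39_44⟩, trivial⟩,
    ⟨⟨_, D_05.u5056_40_40⟩, trivial⟩,
    ⟨⟨_, D_05.u5056_41_41⟩, trivial⟩,
    ⟨⟨_, D_05.u5056_42_42⟩, trivial⟩,
    ⟨⟨_, D_05.u5056_43_43⟩, trivial⟩,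
    ⟨⟨_, D_05.u5056_44_44⟩, trivial⟩,
    ⟨⟨_, D_05.u5056_45_45⟩, trivial⟩, trivial⟩

theorem r5060 : RowDead typ nl lane 5060 :=
  rowDead_of_units (dok_oD hg ht) typ_lt lane_lt (tieB_mem Tie.tl5060 (5060, l5060) (List.mem_singleton.2 rfl))
    (nss := [[48], [47], [46], [45], [26, 14, 4], [26, 13, 4], [42], [41], [40], [39], [38], [37], [36], [35], [34], [33], [32], [31], [30], [29], [28], [27], [26], [25], [24], [23], [22], [21], [20], [19], [14, 4], [13, 4], [12, 4], [11, 4], [4, 10], [13], [3, 9], [11], [6, 3, 1], [6, 2, 1], [3, 5], [3, 4], [6], [5], [4], [3], [2], [1]]) (by decide +kernel)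
   ⟨⟨⟨_, D_05.u5060_0_0⟩, trivial⟩,
    ⟨⟨_, D_05.u5060_1_1⟩, trivial⟩,
    ⟨⟨_, D_05.u5060_2_2⟩, trivial⟩,
    ⟨⟨_, D_05.u5060_3_3⟩, trivial⟩,
    ⟨⟨_, D_05.u5060_4_4⟩, ⟨_, D_05.u5060_4_30⟩, ⟨_, D_05.u5060_4_44⟩, trivial⟩,
    ⟨⟨_, D_05.u5060_5_5⟩, ⟨_, D_05.u5060_5_31⟩, ⟨_, D_05.u5060_5_44⟩, trivial⟩,
    ⟨⟨_, D_05.u5060_6_6⟩, trivial⟩,
    ⟨⟨_, D_05.u5060_7_7⟩, trivial⟩,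
    ⟨⟨_, D_05.u5060_8_8⟩, trivial⟩,
    ⟨⟨_, D_05.u5060_9_9⟩, trivial⟩,
    ⟨⟨_, D_05.u5060_10_10⟩, trivial⟩,
    ⟨⟨_, D_05.u5060_11_11⟩, trivial⟩,
    ⟨⟨_, D_05.u5060_12_12⟩, trivial⟩,
    ⟨⟨_, D_05.u5060_13_13⟩, trivial⟩,
    ⟨⟨_, D_05.u5060_14_14⟩, trivial⟩,
    ⟨⟨_, D_05.u5060_15_15⟩, trivial⟩,
    ⟨⟨_, D_05.u5060_16_16⟩, trivial⟩,
    ⟨⟨_, D_05.u5060_17_17⟩, trivial⟩,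
    ⟨⟨_, D_05.u5060_18_18⟩, trivial⟩,
    ⟨⟨_, D_05.u5060_19_19⟩, trivial⟩,
    ⟨⟨_, D_05.u5060_20_20⟩, trivial⟩,
    ⟨⟨_, D_05.u5060_21_21⟩, trivial⟩,
    ⟨⟨_, D_05.u5060_22_22⟩, trivial⟩,
    ⟨⟨_, D_05.u5060_23_23⟩, trivial⟩,
    ⟨⟨_, D_05.u5060_24_24⟩, trivial⟩,
    ⟨⟨_, D_05.u5060_25_25⟩, trivial⟩,
    ⟨⟨_, D_05.u5060_26_26⟩, trivial⟩,
    ⟨⟨_, D_05.u5060_27_27⟩, trivial⟩,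
    ⟨⟨_, D_05.u5060_28_28⟩, trivial⟩,
    ⟨⟨_, D_05.u5060_29_29⟩, trivial⟩,
    ⟨⟨_, D_05.u5060_30_30⟩, ⟨_, D_05.u5060_30_44⟩, trivial⟩,
    ⟨⟨_, D_05.u5060_31_31⟩, ⟨_, D_05.u5060_31_44⟩, trivial⟩,
    ⟨⟨_, D_05.u5060_32_32⟩, ⟨_, D_05.u5060_32_44⟩, trivial⟩,
    ⟨⟨_, D_05.u5060_33_33⟩, ⟨_, D_05.u5060_33_44⟩, trivial⟩,
    ⟨⟨_, D_05.u5060_34_34⟩, ⟨_, D_05.u5060_34_38⟩, trivial⟩,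
    ⟨⟨_, D_05.u5060_35_35⟩, trivial⟩,
    ⟨⟨_, D_05.u5060_36_36⟩, ⟨_, D_05.u5060_36_39⟩, trivial⟩,
    ⟨⟨_, D_05.u5060_37_37⟩, trivial⟩,
    ⟨⟨_, D_05.u5060_38_38⟩, ⟨_, D_05.u5060_38_44⟩, ⟨_, D_05.u5060_38_47⟩, trivial⟩,
    ⟨⟨_, D_05.u5060_39_39⟩, ⟨_, D_05.u5060_39_45⟩, ⟨_, D_05.u5060_39_47⟩, trivial⟩,
    ⟨⟨_, D_05.u5060_40_40⟩, ⟨_, D_05.u5060_40_43⟩, trivial⟩,
    ⟨⟨_, D_05.u5060_41_41⟩, ⟨_, D_05.u5060_41_44⟩, trivial⟩,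
    ⟨⟨_, D_05.u5060_42_42⟩, trivial⟩,
    ⟨⟨_, D_05.u5060_43_43⟩, trivial⟩,
    ⟨⟨_, D_05.u5060_44_44⟩, trivial⟩,
    ⟨⟨_, D_05.u5060_45_45⟩, trivial⟩,
    ⟨⟨_, D_05.u5060_46_46⟩, trivial⟩,
    ⟨⟨_, D_05.u5060_47_47⟩, trivial⟩, trivial⟩

theorem r5061 : RowDead typ nl lane 5061 :=
  rowDead_of_units (dok_oD hg ht) typ_lt lane_lt (tieB_mem Tie.tl5061 (5061, l5061) (List.mem_singleton.2 rfl))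
    (nss := [[12, 11], [9, 3, 10], [8, 3, 10], [8, 2, 10], [7, 5, 7], [9, 9], [8, 9], [2, 9, 5], [10, 5], [9, 5], [8, 5], [12], [11], [10], [9], [8], [7], [6], [5], [4], [3], [2], [1]]) (by decide +kernel)
   ⟨⟨⟨_, D_05.u5061_0_0⟩, ⟨_, D_05.u5061_0_12⟩, trivial⟩,
    ⟨⟨_, D_05.u5061_1_1⟩, ⟨_, D_05.u5061_1_10⟩, ⟨_, D_05.u5061_1_13⟩, trivial⟩,
    ⟨⟨_, D_05.u5061_2_2⟩, ⟨_, D_05.u5061_2_10⟩, ⟨_, D_05.u5061_2_13⟩, trivial⟩,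
    ⟨⟨_, D_05.u5061_3_3⟩, ⟨_, D_05.u5061_3_11⟩, ⟨_, D_05.u5061_3_13⟩, trivial⟩,
    ⟨⟨_, D_05.u5061_4_4⟩, ⟨_, D_05.u5061_4_11⟩, ⟨_, D_05.u5061_4_16⟩, trivial⟩,
    ⟨⟨_, D_05.u5061_5_5⟩, ⟨_, D_05.u5061_5_14⟩, trivial⟩,
    ⟨⟨_, D_05.u5061_6_6⟩, ⟨_, D_05.u5061_6_14⟩, trivial⟩,
    ⟨⟨_, D_05.u5061_7_7⟩, ⟨_, D_05.u5061_7_9⟩, ⟨_, D_05.u5061_7_18⟩, trivial⟩,
    ⟨⟨_, D_05.u5061_8_8⟩, ⟨_, D_05.u5061_8_18⟩, trivial⟩,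
    ⟨⟨_, D_05.u5061_9_9⟩, ⟨_, D_05.u5061_9_18⟩, trivial⟩,
    ⟨⟨_, D_05.u5061_10_10⟩, ⟨_, D_05.u5061_10_18⟩, trivial⟩,
    ⟨⟨_, D_05.u5061_11_11⟩, trivial⟩,
    ⟨⟨_, D_05.u5061_12_12⟩, trivial⟩,
    ⟨⟨_, D_05.u5061_13_13⟩, trivial⟩,
    ⟨⟨_, D_05.u5061_14_14⟩, trivial⟩,
    ⟨⟨_, D_05.u5061_15_15⟩, trivial⟩,
    ⟨⟨_, D_05.u5061_16_16⟩, trivial⟩,
    ⟨⟨_, D_05.u5061_17_17⟩, trivial⟩,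
    ⟨⟨_, D_05.u5061_18_18⟩, trivial⟩,
    ⟨⟨_, D_05.u5061_19_19⟩, trivial⟩,
    ⟨⟨_, D_05.u5061_20_20⟩, trivial⟩,
    ⟨⟨_, D_05.u5061_21_21⟩, trivial⟩,
    ⟨⟨_, D_05.u5061_22_22⟩, trivial⟩, trivial⟩

theorem r5062 : RowDead typ nl lane 5062 :=
  rowDead_of_units (dok_oD hg ht) typ_lt lane_lt (tieB_mem Tie.tl5062 (5062, l5062) (List.mem_singleton.2 rfl))
    (nss := [[16, 17, 10, 2, 2, 1, 2], [15, 17, 2, 14, 1], [48], [47], [46], [45], [44], [43], [41, 1], [40, 1], [40], [39], [38], [37], [36], [35], [34], [33], [32], [31], [30], [29], [28], [27], [26], [25], [24], [23], [22], [21], [12, 8], [11, 8], [14, 4], [13, 4], [12, 4], [11, 4], [13, 1], [12, 1], [7, 2, 3], [6, 5], [3, 1, 6], [3, 6], [8], [7], [6], [5], [4], [2, 1], [2],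 [1]]) (by decide +kernel)
   ⟨⟨⟨_, D_05.u5062_0_0⟩, ⟨_, D_05.u5062_0_16⟩, ⟨_, D_05.u5062_0_33⟩, ⟨_, D_05.u5062_0_43⟩, ⟨_, D_05.u5062_0_45⟩, ⟨_, D_05.u5062_0_47⟩, ⟨_, D_05.u5062_0_48⟩, trivial⟩,
    ⟨⟨_, D_05.u5062_1_1⟩, ⟨_, D_05.u5062_1_16⟩, ⟨_, D_05.u5062_1_33⟩, ⟨_, D_05.u5062_1_35⟩, ⟨_, D_05.u5062_1_49⟩, trivial⟩,
    ⟨⟨_, D_05.u5062_2_2⟩, trivial⟩,
    ⟨⟨_, D_05.u5062_3_3⟩, trivial⟩,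
    ⟨⟨_, D_05.u5062_4_4⟩, trivial⟩,
    ⟨⟨_, D_05.u5062_5_5⟩, trivial⟩,
    ⟨⟨_, D_05.u5062_6_6⟩, trivial⟩,
    ⟨⟨_, D_05.u5062_7_7⟩, trivial⟩,
    ⟨⟨_, D_05.u5062_8_8⟩, ⟨_, D_05.u5062_8_49⟩, trivial⟩,
    ⟨⟨_, D_05.u5062_9_9⟩, ⟨_, D_05.u5062_9_49⟩, trivial⟩,
    ⟨⟨_, D_05.u5062_10_10⟩, trivial⟩,
    ⟨⟨_, D_05.u5062_11_11⟩, trivial⟩,
    ⟨⟨_, D_05.u5062_12_12⟩, trivial⟩,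
    ⟨⟨_, D_05.u5062_13_13⟩, trivial⟩,
    ⟨⟨_, D_05.u5062_14_14⟩, trivial⟩,
    ⟨⟨_, D_05.u5062_15_15⟩, trivial⟩,
    ⟨⟨_, D_05.u5062_16_16⟩, trivial⟩,
    ⟨⟨_, D_05.u5062_17_17⟩, trivial⟩,
    ⟨⟨_, D_05.u5062_18_18⟩, trivial⟩,
    ⟨⟨_, D_05.u5062_19_19⟩, trivial⟩,
    ⟨⟨_, D_05.u5062_20_20⟩, trivial⟩,
    ⟨⟨_, D_05.u5062_21_21⟩, trivial⟩,
    ⟨⟨_, D_05.u5062_22_22⟩, trivial⟩,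
    ⟨⟨_, D_05.u5062_23_23⟩, trivial⟩,
    ⟨⟨_, D_05.u5062_24_24⟩, trivial⟩,
    ⟨⟨_, D_05.u5062_25_25⟩, trivial⟩,
    ⟨⟨_, D_05.u5062_26_26⟩, trivial⟩,
    ⟨⟨_, D_05.u5062_27_27⟩, trivial⟩,
    ⟨⟨_, D_05.u5062_28_28⟩, trivial⟩,
    ⟨⟨_, D_05.u5062_29_29⟩, trivial⟩,
    ⟨⟨_, D_05.u5062_30_30⟩, ⟨_, D_05.u5062_30_42⟩, trivial⟩,
    ⟨⟨_, D_05.u5062_31_31⟩, ⟨_, D_05.u5062_31_42⟩, trivial⟩,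
    ⟨⟨_, D_05.u5062_32_32⟩, ⟨_, D_05.u5062_32_46⟩, trivial⟩,
    ⟨⟨_, D_05.u5062_33_33⟩, ⟨_, D_05.u5062_33_46⟩, trivial⟩,
    ⟨⟨_, D_05.u5062_34_34⟩, ⟨_, D_05.u5062_34_46⟩, trivial⟩,
    ⟨⟨_, D_05.u5062_35_35⟩, ⟨_, D_05.u5062_35_46⟩, trivial⟩,
    ⟨⟨_, D_05.u5062_36_36⟩, ⟨_, D_05.u5062_36_49⟩, trivial⟩,
    ⟨⟨_, D_05.u5062_37_37⟩, ⟨_, D_05.u5062_37_49⟩, trivial⟩,
    ⟨⟨_, D_05.u5062_38_38⟩, ⟨_, D_05.u5062_38_45⟩, ⟨_, D_05.u5062_38_47⟩, trivial⟩,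
    ⟨⟨_, D_05.u5062_39_39⟩, ⟨_, D_05.u5062_39_45⟩, trivial⟩,
    ⟨⟨_, D_05.u5062_40_40⟩, ⟨_, D_05.u5062_40_43⟩, ⟨_, D_05.u5062_40_44⟩, trivial⟩,
    ⟨⟨_, D_05.u5062_41_41⟩, ⟨_, D_05.u5062_41_44⟩, trivial⟩,
    ⟨⟨_, D_05.u5062_42_42⟩, trivial⟩,
    ⟨⟨_, D_05.u5062_43_43⟩, trivial⟩,
    ⟨⟨_, D_05.u5062_44_44⟩, trivial⟩,
    ⟨⟨_, D_05.u5062_45_45⟩, trivial⟩,
    ⟨⟨_, D_05.u5062_46_46⟩, trivial⟩,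
    ⟨⟨_, D_05.u5062_47_47⟩, ⟨_, D_05.u5062_47_49⟩, trivial⟩,
    ⟨⟨_, D_05.u5062_48_48⟩, trivial⟩,
    ⟨⟨_, D_05.u5062_49_49⟩, trivial⟩, trivial⟩

theorem r5065 : RowDead typ nl lane 5065 :=
  rowDead_of_units (dok_oD hg ht) typ_lt lane_lt (tieB_mem Tie.tl5065 (5065, l5065) (List.mem_singleton.2 rfl))
    (nss := [[14, 16, 11, 14, 1], [13, 17, 11, 14], [54], [53], [52], [51], [50], [49], [48], [47], [46], [45], [44], [43], [42], [41], [30, 10], [30, 9], [37, 1], [37], [36], [35], [34], [33], [32], [31], [30], [29], [28], [27], [26], [25], [24], [23], [22], [21], [20], [19], [18], [17], [16], [15], [14], [13], [12], [11], [10], [9], [8], [7], [6], [5], [4], [3], [2], [1]]) (by decide +kernel)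
   ⟨⟨⟨_, D_05.u5065_0_0⟩, ⟨_, D_05.u5065_0_14⟩, ⟨_, D_05.u5065_0_30⟩, ⟨_, D_05.u5065_0_41⟩, ⟨_, D_05.u5065_0_55⟩, trivial⟩,
    ⟨⟨_, D_05.u5065_1_1⟩, ⟨_, D_05.u5065_1_14⟩, ⟨_, D_05.u5065_1_31⟩, ⟨_, D_05.u5065_1_42⟩, trivial⟩,
    ⟨⟨_, D_05.u5065_2_2⟩, trivial⟩,
    ⟨⟨_, D_05.u5065_3_3⟩, trivial⟩,
    ⟨⟨_, D_05.u5065_4_4⟩, trivial⟩,
    ⟨⟨_, D_05.u5065_5_5⟩, trivial⟩,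
    ⟨⟨_, D_05.u5065_6_6⟩, trivial⟩,
    ⟨⟨_, D_05.u5065_7_7⟩, trivial⟩,
    ⟨⟨_, D_05.u5065_8_8⟩, trivial⟩,
    ⟨⟨_, D_05.u5065_9_9⟩, trivial⟩,
    ⟨⟨_, D_05.u5065_10_10⟩, trivial⟩,
    ⟨⟨_, D_05.u5065_11_11⟩, trivial⟩,
    ⟨⟨_, D_05.u5065_12_12⟩, trivial⟩,
    ⟨⟨_, D_05.u5065_13_13⟩, trivial⟩,
    ⟨⟨_, D_05.u5065_14_14⟩, trivial⟩,
    ⟨⟨_, D_05.u5065_15_15⟩, trivial⟩,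
    ⟨⟨_, D_05.u5065_16_16⟩, ⟨_, D_05.u5065_16_46⟩, trivial⟩,
    ⟨⟨_, D_05.u5065_17_17⟩, ⟨_, D_05.u5065_17_47⟩, trivial⟩,
    ⟨⟨_, D_05.u5065_18_18⟩, ⟨_, D_05.u5065_18_55⟩, trivial⟩,
    ⟨⟨_, D_05.u5065_19_19⟩, trivial⟩,
    ⟨⟨_, D_05.u5065_20_20⟩, trivial⟩,
    ⟨⟨_, D_05.u5065_21_21⟩, trivial⟩,
    ⟨⟨_, D_05.u5065_22_22⟩, trivial⟩,
    ⟨⟨_, D_05.u5065_23_23⟩, trivial⟩,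
    ⟨⟨_, D_05.u5065_24_24⟩, trivial⟩,
    ⟨⟨_, D_05.u5065_25_25⟩, trivial⟩,
    ⟨⟨_, D_05.u5065_26_26⟩, trivial⟩,
    ⟨⟨_, D_05.u5065_27_27⟩, trivial⟩,
    ⟨⟨_, D_05.u5065_28_28⟩, trivial⟩,
    ⟨⟨_, D_05.u5065_29_29⟩, trivial⟩,
    ⟨⟨_, D_05.u5065_30_30⟩, trivial⟩,
    ⟨⟨_, D_05.u5065_31_31⟩, trivial⟩,
    ⟨⟨_, D_05.u5065_32_32⟩, trivial⟩,
    ⟨⟨_, D_05.u5065_33_33⟩, trivial⟩,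
    ⟨⟨_, D_05.u5065_34_34⟩, trivial⟩,
    ⟨⟨_, D_05.u5065_35_35⟩, trivial⟩,
    ⟨⟨_, D_05.u5065_36_36⟩, trivial⟩,
    ⟨⟨_, D_05.u5065_37_37⟩, trivial⟩,
    ⟨⟨_, D_05.u5065_38_38⟩, trivial⟩,
    ⟨⟨_, D_05.u5065_39_39⟩, trivial⟩,
    ⟨⟨_, D_05.u5065_40_40⟩, trivial⟩,
    ⟨⟨_, D_05.u5065_41_41⟩, trivial⟩,
    ⟨⟨_, D_05.u5065_42_42⟩, trivial⟩,
    ⟨⟨_, D_05.u5065_43_43⟩, trivial⟩,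
    ⟨⟨_, D_05.u5065_44_44⟩, trivial⟩,
    ⟨⟨_, D_05.u5065_45_45⟩, trivial⟩,
    ⟨⟨_, D_05.u5065_46_46⟩, trivial⟩,
    ⟨⟨_, D_05.u5065_47_47⟩, trivial⟩,
    ⟨⟨_, D_05.u5065_48_48⟩, trivial⟩,
    ⟨⟨_, D_05.u5065_49_49⟩, trivial⟩,
    ⟨⟨_, D_05.u5065_50_50⟩, trivial⟩,
    ⟨⟨_, D_05.u5065_51_51⟩, trivial⟩,
    ⟨⟨_, D_05.u5065_52_52⟩, trivial⟩,
    ⟨⟨_, D_05.u5065_53_53⟩, trivial⟩,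
    ⟨⟨_, D_05.u5065_54_54⟩, trivial⟩,
    ⟨⟨_, D_05.u5065_55_55⟩, trivial⟩, trivial⟩

theorem r5066 : RowDead typ nl lane 5066 :=
  rowDead_of_units (dok_oD hg ht) typ_lt lane_lt (tieB_mem Tie.tl5066 (5066, l5066) (List.mem_singleton.2 rfl))
    (nss := [[24, 3], [26], [25], [24], [23], [22], [21], [20], [19], [18], [17], [16], [15], [14], [13], [12], [11], [10], [9], [8], [7], [6], [5], [4], [3], [2], [1]]) (by decide +kernel)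
   ⟨⟨⟨_, D_05.u5066_0_0⟩, ⟨_, D_05.u5066_0_24⟩, trivial⟩,
    ⟨⟨_, D_05.u5066_1_1⟩, trivial⟩,
    ⟨⟨_, D_05.u5066_2_2⟩, trivial⟩,
    ⟨⟨_, D_05.u5066_3_3⟩, trivial⟩,
    ⟨⟨_, D_05.u5066_4_4⟩, trivial⟩,
    ⟨⟨_, D_05.u5066_5_5⟩, trivial⟩,
    ⟨⟨_, D_05.u5066_6_6⟩, trivial⟩,
    ⟨⟨_, D_05.u5066_7_7⟩, trivial⟩,
    ⟨⟨_, D_05.u5066_8_8⟩, trivial⟩,
    ⟨⟨_, D_05.u5066_9_9⟩, trivial⟩,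
    ⟨⟨_, D_05.u5066_10_10⟩, trivial⟩,
    ⟨⟨_, D_05.u5066_11_11⟩, trivial⟩,
    ⟨⟨_, D_05.u5066_12_12⟩, trivial⟩,
    ⟨⟨_, D_05.u5066_13_13⟩, trivial⟩,
    ⟨⟨_, D_05.u5066_14_14⟩, trivial⟩,
    ⟨⟨_, D_05.u5066_15_15⟩, trivial⟩,
    ⟨⟨_, D_05.u5066_16_16⟩, trivial⟩,
    ⟨⟨_, D_05.u5066_17_17⟩, trivial⟩,
    ⟨⟨_, D_05.u5066_18_18⟩, trivial⟩,
    ⟨⟨_, D_05.u5066_19_19⟩, trivial⟩,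
    ⟨⟨_, D_05.u5066_20_20⟩, trivial⟩,
    ⟨⟨_, D_05.u5066_21_21⟩, trivial⟩,
    ⟨⟨_, D_05.u5066_22_22⟩, trivial⟩,
    ⟨⟨_, D_05.u5066_23_23⟩, trivial⟩,
    ⟨⟨_, D_05.u5066_24_24⟩, trivial⟩,
    ⟨⟨_, D_05.u5066_25_25⟩, trivial⟩,
    ⟨⟨_, D_05.u5066_26_26⟩, trivial⟩, trivial⟩

end Pool.Agent.Gen.TY.D
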