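import Pool.Agent.Gen.TY.D.D_00
import Pool.Agent.Gen.TY.D.D_01
import Pool.Agent.Gen.TY.D.D_02
import Pool.Agent.Gen.TY.D.D_03
import Pool.Agent.Gen.TY.D.D_04
import Pool.Agent.Gen.TY.D.D_05
import Pool.Agent.Helper7.TB.Rows

/-!
MP_8ee768_co, project TH-Y', stage D: the literal rows are the rows of the table.
-/

set_option autoImplicit false
set_option maxRecDepth 100000
set_option linter.defProp false

namespace Pool.Agent.Gen.TY.D.Tie

open Pool.Agent.Helper47.TY
open Pool.Agent.Helper7.TB (typ nl lane)
open Pool.Agent.Gen.TY.D.Rows

def t0 : tieB nl lane (rowsOf D_00.b0) = true := by decide +kernel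

def t1 : tieB nl lane (rowsOf D_00.b1) = true := by decide +kernel

def t2 : tieB nl lane (rowsOf D_00.b2) = true := by decide +kernel

def t3 : tieB nl lane (rowsOf D_00.b3) = true := by decide +kernel

def t4 : tieB nl lane (rowsOf D_00.b4) = true := by decide +kernel

def t5 : tieB nl lane (rowsOf D_00.b5) = true := by decide +kernel

def t6 : tieB nl lane (rowsOf D_00.b6) = true := by decide +kernel

def t7 : tieB nl lane (rowsOf D_00.b7) = true := by decide +kernel

def t8 : tieB nl lane (rowsOf D_00.b8) = true := by decide +kernel

def t9 : tieB nl lane (rowsOf D_00.b9) = true := by decide +kernel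

def t10 : tieB nl lane (rowsOf D_00.b10) = true := by decide +kernel

def t11 : tieB nl lane (rowsOf D_00.b11) = true := by decide +kernel

def t12 : tieB nl lane (rowsOf D_00.b12) = true := by decide +kernel

def t13 : tieB nl lane (rowsOf D_00.b13) = true := by decide +kernel

def t14 : tieB nl lane (rowsOf D_00.b14) = true := by decide +kernel

def t15 : tieB nl lane (rowsOf D_00.b15) = true := by decide +kernel

def t16 : tieB nl lane (rowsOf D_00.b16) = true := by decide +kernel

def t17 : tieB nl lane (rowsOf D_00.b17) = true := by decide +kernel

def t18 : tieB nl lane (rowsOf D_00.b18) = true := by decide +kernel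

def t19 : tieB nl lane (rowsOf D_00.b19) = true := by decide +kernel

def t20 : tieB nl lane (rowsOf D_00.b20) = true := by decide +kernel

def t21 : tieB nl lane (rowsOf D_00.b21) = true := by decide +kernel

def t22 : tieB nl lane (rowsOf D_00.b22) = true := by decide +kernel

def t23 : tieB nl lane (rowsOf D_00.b23) = true := by decide +kernel

def t24 : tieB nl lane (rowsOf D_00.b24) = true := by decide +kernel

def t25 : tieB nl lane (rowsOf D_00.b25) = true := by decide +kernel

def t26 : tieB nl lane (rowsOf D_00.b26) = true := by decide +kernel

def t27 : tieB nl lane (rowsOf D_00.b27) = true := by decide +kernel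

def t28 : tieB nl lane (rowsOf D_00.b28) = true := by decide +kernel

def t29 : tieB nl lane (rowsOf D_00.b29) = true := by decide +kernel

def t30 : tieB nl lane (rowsOf D_00.b30) = true := by decide +kernel

def t31 : tieB nl lane (rowsOf D_00.b31) = true := by decide +kernel

def t32 : tieB nl lane (rowsOf D_00.b32) = true := by decide +kernel

def t33 : tieB nl lane (rowsOf D_00.b33) = true := by decide +kernel

def t34 : tieB nl lane (rowsOf D_00.b34) = true := by decide +kernel

def t35 : tieB nl lane (rowsOf D_00.b35) = true := by decide +kernel

def t36 : tieB nl lane (rowsOf D_00.b36) = true := by decide +kernel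

def t37 : tieB nl lane (rowsOf D_00.b37) = true := by decide +kernel

def t38 : tieB nl lane (rowsOf D_00.b38) = true := by decide +kernel

def t39 : tieB nl lane (rowsOf D_00.b39) = true := by decide +kernel

def t40 : tieB nl lane (rowsOf D_00.b40) = true := by decide +kernel

def t41 : tieB nl lane (rowsOf D_00.b41) = true := by decide +kernel

def t42 : tieB nl lane (rowsOf D_00.b42) = true := by decide +kernel

def t43 : tieB nl lane (rowsOf D_00.b43) = true := by decide +kernel

def t44 : tieB nl lane (rowsOf D_00.b44) = true := by decide +kernel

def t45 : tieB nl lane (rowsOf D_00.b45) = true := by decide +kernel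

def t46 : tieB nl lane (rowsOf D_00.b46) = true := by decide +kernel

def t47 : tieB nl lane (rowsOf D_00.b47) = true := by decide +kernel

def t48 : tieB nl lane (rowsOf D_00.b48) = true := by decide +kernel

def t49 : tieB nl lane (rowsOf D_00.b49) = true := by decide +kernel

def t50 : tieB nl lane (rowsOf D_00.b50) = true := by decide +kernel

def t51 : tieB nl lane (rowsOf D_00.b51) = true := by decide +kernel

def t52 : tieB nl lane (rowsOf D_00.b52) = true := by decide +kernel

def t53 : tieB nl lane (rowsOf D_00.b53) = true := by decide +kernel

def t54 : tieB nl lane (rowsOf D_00.b54) = true := by decide +kernel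

def t55 : tieB nl lane (rowsOf D_00.b55) = true := by decide +kernel

def t56 : tieB nl lane (rowsOf D_00.b56) = true := by decide +kernel

def t57 : tieB nl lane (rowsOf D_00.b57) = true := by decide +kernel

def t58 : tieB nl lane (rowsOf D_00.b58) = true := by decide +kernel

def t59 : tieB nl lane (rowsOf D_00.b59) = true := by decide +kernel

def t60 : tieB nl lane (rowsOf D_00.b60) = true := by decide +kernel

def t61 : tieB nl lane (rowsOf D_00.b61) = true := by decide +kernel

def t62 : tieB nl lane (rowsOf D_00.b62) = true := by decide +kernel

def t63 : tieB nl lane (rowsOf D_00.b63) = true := by decide +kernel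

def t64 : tieB nl lane (rowsOf D_00.b64) = true := by decide +kernel

def t65 : tieB nl lane (rowsOf D_00.b65) = true := by decide +kernel

def t66 : tieB nl lane (rowsOf D_00.b66) = true := by decide +kernel

def t67 : tieB nl lane (rowsOf D_00.b67) = true := by decide +kernel

def t68 : tieB nl lane (rowsOf D_00.b68) = true := by decide +kernel

def t69 : tieB nl lane (rowsOf D_00.b69) = true := by decide +kernel

def t70 : tieB nl lane (rowsOf D_00.b70) = true := by decide +kernel

def t71 : tieB nl lane (rowsOf D_00.b71) = true := by decide +kernel

def t72 : tieB nl lane (rowsOf D_00.b72) = true := by decide +kernel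

def t73 : tieB nl lane (rowsOf D_00.b73) = true := by decide +kernel

def t74 : tieB nl lane (rowsOf D_00.b74) = true := by decide +kernel

def t75 : tieB nl lane (rowsOf D_00.b75) = true := by decide +kernel

def t76 : tieB nl lane (rowsOf D_00.b76) = true := by decide +kernel

def t77 : tieB nl lane (rowsOf D_00.b77) = true := by decide +kernel

def t78 : tieB nl lane (rowsOf D_00.b78) = true := by decide +kernel

def t79 : tieB nl lane (rowsOf D_00.b79) = true := by decide +kernel

def t80 : tieB nl lane (rowsOf D_00.b80) = true := by decide +kernel

def t81 : tieB nl lane (rowsOf D_00.b81) = true := by decide +kernel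

def t82 : tieB nl lane (rowsOf D_00.b82) = true := by decide +kernel

def t83 : tieB nl lane (rowsOf D_00.b83) = true := by decide +kernel

def t84 : tieB nl lane (rowsOf D_00.b84) = true := by decide +kernel

def t85 : tieB nl lane (rowsOf D_00.b85) = true := by decide +kernel

def tl1018 : tieB nl lane [(1018, l1018)] = true := by decide +kernel

def tl1021 : tieB nl lane [(1021, l1021)] = true := by decide +kernel

def tl1027 : tieB nl lane [(1027, l1027)] = true := by decide +kernel

def tl1188 : tieB nl lane [(1188, l1188)] = true := by decide +kernel

def tl1281 : tieB nl lane [(1281, l1281)] = true := by decide +kernel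

def tl1471 : tieB nl lane [(1471, l1471)] = true := by decide +kernel

def tl1643 : tieB nl lane [(1643, l1643)] = true := by decide +kernel

def tl1653 : tieB nl lane [(1653, l1653)] = true := by decide +kernel

def tl1695 : tieB nl lane [(1695, l1695)] = true := by decide +kernel

def tl1722 : tieB nl lane [(1722, l1722)] = true := by decide +kernel

def tl1723 : tieB nl lane [(1723, l1723)] = true := by decide +kernel

def tl1947 : tieB nl lane [(1947, l1947)] = true := by decide +kernel

def tl2117 : tieB nl lane [(2117, l2117)] = true := by decide +kernel

def tl2137 : tieB nl lane [(2137, l2137)] = true := by decide +kernel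

def tl2162 : tieB nl lane [(2162, l2162)] = true := by decide +kernel

def tl2231 : tieB nl lane [(2231, l2231)] = true := by decide +kernel

def tl2287 : tieB nl lane [(2287, l2287)] = true := by decide +kernel

def tl2307 : tieB nl lane [(2307, l2307)] = true := by decide +kernel

def tl2311 : tieB nl lane [(2311, l2311)] = true := by decide +kernel

def tl2312 : tieB nl lane [(2312, l2312)] = true := by decide +kernel

def tl2315 : tieB nl lane [(2315, l2315)] = true := by decide +kernel

def tl2773 : tieB nl lane [(2773, l2773)] = true := by decide +kernel

def tl2777 : tieB nl lane [(2777, l2777)] = true := by decide +kernel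

def tl3043 : tieB nl lane [(3043, l3043)] = true := by decide +kernel

def tl3064 : tieB nl lane [(3064, l3064)] = true := by decide +kernel

def tl3440 : tieB nl lane [(3440, l3440)] = true := by decide +kernel

def tl3651 : tieB nl lane [(3651, l3651)] = true := by decide +kernel

def tl3665 : tieB nl lane [(3665, l3665)] = true := by decide +kernel

def tl3991 : tieB nl lane [(3991, l3991)] = true := by decide +kernel

def tl3992 : tieB nl lane [(3992, l3992)] = true := by decide +kernel

def tl4003 : tieB nl lane [(4003, l4003)] = true := by decide +kernel

def tl4063 : tieB nl lane [(4063, l4063)] = true := by decide +kernel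

def tl4071 : tieB nl lane [(4071, l4071)] = true := by decide +kernel

def tl4072 : tieB nl lane [(4072, l4072)] = true := by decide +kernel

def tl4073 : tieB nl lane [(4073, l4073)] = true := by decide +kernel

def tl4074 : tieB nl lane [(4074, l4074)] = true := by decide +kernel

def tl4100 : tieB nl lane [(4100, l4100)] = true := by decide +kernel

def tl4123 : tieB nl lane [(4123, l4123)] = true := by decide +kernel

def tl4131 : tieB nl lane [(4131, l4131)] = true := by decide +kernel

def tl4134 : tieB nl lane [(4134, l4134)] = true := by decide +kernel

def tl4135 : tieB nl lane [(4135, l4135)] = true := by decide +kernel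

def tl4136 : tieB nl lane [(4136, l4136)] = true := by decide +kernel

def tl4430 : tieB nl lane [(4430, l4430)] = true := by decide +kernel

def tl4517 : tieB nl lane [(4517, l4517)] = true := by decide +kernel

def tl4538 : tieB nl lane [(4538, l4538)] = true := by decide +kernel

def tl4539 : tieB nl lane [(4539, l4539)] = true := by decide +kernel

def tl4540 : tieB nl lane [(4540, l4540)] = true := by decide +kernel

def tl4545 : tieB nl lane [(4545, l4545)] = true := by decide +kernel

def tl4564 : tieB nl lane [(4564, l4564)] = true := by decide +kernel

def tl4566 : tieB nl lane [(4566, l4566)] = true := by decide +kernel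

def tl4569 : tieB nl lane [(4569, l4569)] = true := by decide +kernel

def tl4697 : tieB nl lane [(4697, l4697)] = true := by decide +kernel

def tl4813 : tieB nl lane [(4813, l4813)] = true := by decide +kernel

def tl4825 : tieB nl lane [(4825, l4825)] = true := by decide +kernel

def tl4852 : tieB nl lane [(4852, l4852)] = true := by decide +kernel

def tl4908 : tieB nl lane [(4908, l4908)] = true := by decide +kernel

def tl4911 : tieB nl lane [(4911, l4911)] = true := by decide +kernel

def tl4941 : tieB nl lane [(4941, l4941)] = true := by decide +kernel

def tl4961 : tieB nl lane [(4961, l4961)] = true := by decide +kernel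

def tl4966 : tieB nl lane [(4966, l4966)] = true := by decide +kernel

def tl4967 : tieB nl lane [(4967, l4967)] = true := by decide +kernel

def tl4968 : tieB nl lane [(4968, l4968)] = true := by decide +kernel

def tl4988 : tieB nl lane [(4988, l4988)] = true := by decide +kernel

def tl4989 : tieB nl lane [(4989, l4989)] = true := by decide +kernel

def tl4990 : tieB nl lane [(4990, l4990)] = true := by decide +kernel

def tl4991 : tieB nl lane [(4991, l4991)] = true := by decide +kernel

def tl4993 : tieB nl lane [(4993, l4993)] = true := by decide +kernel

def tl4994 : tieB nl lane [(4994, l4994)] = true := by decide +kernel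

def tl5021 : tieB nl lane [(5021, l5021)] = true := by decide +kernel

def tl5022 : tieB nl lane [(5022, l5022)] = true := by decide +kernel

def tl5024 : tieB nl lane [(5024, l5024)] = true := by decide +kernel

def tl5025 : tieB nl lane [(5025, l5025)] = true := by decide +kernel

def tl5026 : tieB nl lane [(5026, l5026)] = true := by decide +kernel

def tl5027 : tieB nl lane [(5027, l5027)] = true := by decide +kernel

def tl5045 : tieB nl lane [(5045, l5045)] = true := by decide +kernel

def tl5046 : tieB nl lane [(5046, l5046)] = true := by decide +kernel

def tl5054 : tieB nl lane [(5054, l5054)] = true := by decide +kernel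

def tl5055 : tieB nl lane [(5055, l5055)] = true := by decide +kernel

def tl5056 : tieB nl lane [(5056, l5056)] = true := by decide +kernel

def tl5060 : tieB nl lane [(5060, l5060)] = true := by decide +kernel

def tl5061 : tieB nl lane [(5061, l5061)] = true := by decide +kernel

def tl5062 : tieB nl lane [(5062, l5062)] = true := by decide +kernel

def tl5065 : tieB nl lane [(5065, l5065)] = true := by decide +kernel

def tl5066 : tieB nl lane [(5066, l5066)] = true := by decide +kernel

end Pool.Agent.Gen.TY.D.Tie
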